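import Pool.Agent.T6.H24.TM.Tmp
import Pool.Agent.TH826.MK.Variety
set_option autoImplicit false

/-!
Polynomials with cyclotomic roots in a quotient of two monomials are tempered.
-/

namespace Pool.Agent.T6.H24.TM

open scoped WithZero

open Pool.Agent.TH826.MK

open Pool.Agent.TH826.SX

universe u v

section cyc

variable {K : Type u} [Field K] {S : ℕ}

/-- The form `∑_i c_i z^((d - i) A + i B)`, where the `c_i` are the coefficients of `C`. -/
noncomputable def binform (C : Polynomial K) (A B : Fin S →₀ ℕ) : MvPolynomial (Fin S) K :=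
  ∑ i ∈ Finset.range (C.natDegree + 1),
    MvPolynomial.monomial ((C.natDegree - i) • A + i • B) (C.coeff i)

theorem val_poly {L : Type*} [Field L] (v : Valuation L ℤᵐ⁰) {C : Polynomial L} (hC : C.Monic)
    (hi : ∀ j, v (C.coeff j) ≤ 1) {y : L} (hy : 1 < v y) : v (C.eval y) = v y ^ C.natDegree := by
  rw [Polynomial.eval_eq_sum_range, Finset.sum_range_succ, hC.coeff_natDegree, one_mul, add_comm,
    ← map_pow]
  refine Valuation.map_add_eq_of_lt_left v ?_
  have hpos : v (y ^ C.natDegree) ≠ 0 := by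
    rw [map_pow]
    exact pow_ne_zero _ (zero_lt_one.trans hy).ne'
  refine Valuation.map_sum_lt v hpos fun j hj => ?_
  rw [map_mul, map_pow, map_pow]
  refine (mul_le_mul' (hi j) le_rfl).trans_lt ?_
  rw [one_mul]
  exact pow_lt_pow_right₀ hy (Finset.mem_range.1 hj)

theorem val_poly_small {L : Type*} [Field L] (v : Valuation L ℤᵐ⁰) {C : Polynomial L}
    (hi : ∀ j, v (C.coeff j) ≤ 1) (h0 : v (C.coeff 0) = 1) {y : L} (hy : v y < 1) :
    v (C.eval y) = 1 := by
  rw [Polynomial.eval_eq_sum_range, Finset.sum_range_succ', pow_zero, mul_one, add_comm, ← h0]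
  refine Valuation.map_add_eq_of_lt_left v ?_
  rw [h0]
  refine Valuation.map_sum_lt v one_ne_zero fun j _ => ?_
  rw [map_mul, map_pow]
  refine (mul_le_mul' (hi _) le_rfl).trans_lt ?_
  rw [one_mul]
  exact pow_lt_one₀ zero_le hy (Nat.succ_ne_zero j)

/-- If `C` is monic and divides `X^N - 1`, and `A ≠ B`, the form is tempered. -/
theorem tempered_binform {C : Polynomial K} (hC : C.Monic) {N : ℕ} (hN : N ≠ 0)
    (hd : C ∣ Polynomial.X ^ N - 1) {A B : Fin S →₀ ℕ} (hAB : A ≠ B) :
    Tempered.{u, v} (binform C A B) := by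
  classical
  rintro L _ f v z ⟨m, hm, hlt⟩ n a
  set d : ℕ := C.natDegree with hddef
  have hmonic : (Polynomial.X ^ N - 1 : Polynomial ℤ).Monic := by
    rw [← Polynomial.C_1]
    exact Polynomial.monic_X_pow_sub_C 1 hN
  obtain ⟨D, hCD⟩ := hd
  have hDm : D.Monic := by
    have h1 : (C * D).Monic := by
      rw [← hCD, ← Polynomial.C_1]
      exact Polynomial.monic_X_pow_sub_C 1 hN
    exact hC.of_mul_monic_left h1
  have hmap : (Polynomial.X ^ N - 1 : Polynomial ℤ).map (algebraMap ℤ K) =
      Polynomial.X ^ N - 1 := by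
    rw [Polynomial.map_sub, Polynomial.map_pow, Polynomial.map_X, Polynomial.map_one]
  have hCi : ∀ j, v (f (C.coeff j)) ≤ 1 := fun j => val_le_one_of_integral v
    (map_isIntegral_int f (Polynomial.isIntegral_coeff_of_dvd (Polynomial.X ^ N - 1) C hmonic hC
      (by rw [hmap, hCD]; exact dvd_mul_right _ _) j))
  have hDi : ∀ j, v (f (D.coeff j)) ≤ 1 := fun j => val_le_one_of_integral v
    (map_isIntegral_int f (Polynomial.isIntegral_coeff_of_dvd (Polynomial.X ^ N - 1) D hmonic hDm
      (by rw [hmap, hCD]; exact dvd_mul_left _ _) j))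
  have hC0 : v (f (C.coeff 0)) = 1 := by
    have h1 : C.coeff 0 * D.coeff 0 = -1 := by
      rw [← Polynomial.mul_coeff_zero, ← hCD, Polynomial.coeff_sub, Polynomial.coeff_X_pow,
        Polynomial.coeff_one_zero, if_neg (Ne.symm hN), zero_sub]
    have h2 : v (f (C.coeff 0)) * v (f (D.coeff 0)) = 1 := by
      rw [← map_mul, ← map_mul, h1, map_neg, Valuation.map_neg, map_one, map_one]
    refine le_antisymm (hCi 0) ?_
    by_contra hcon
    rw [not_le] at hcon
    have h3 : v (f (C.coeff 0)) * v (f (D.coeff 0)) < 1 :=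
      (mul_le_mul' le_rfl (hDi 0)).trans_lt (by rw [mul_one]; exact hcon)
    rw [h2] at h3
    exact lt_irrefl _ h3
  -- the value
  set α : Lˣ := ∏ l, z l ^ A l with hα
  set β : Lˣ := ∏ l, z l ^ B l with hβ
  set y : Lˣ := β / α with hy
  have hαc : (α : L) = ∏ l, (z l : L) ^ A l := by
    rw [hα, Units.coe_prod]
    simp only [Units.val_pow_eq_pow_val]
  have hβc : (β : L) = ∏ l, (z l : L) ^ B l := by
    rw [hβ, Units.coe_prod]
    simp only [Units.val_pow_eq_pow_val]
  have hmon : ∀ i, i ≤ d → ∏ l, (z l : L) ^ ((d - i) • A + i • B) l =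
      (α : L) ^ d * (y : L) ^ i := by
    intro i hi
    have h1 : ∏ l, (z l : L) ^ ((d - i) • A + i • B) l =
        (∏ l, (z l : L) ^ A l) ^ (d - i) * (∏ l, (z l : L) ^ B l) ^ i := by
      rw [← Finset.prod_pow, ← Finset.prod_pow, ← Finset.prod_mul_distrib]
      refine Finset.prod_congr rfl fun l _ => ?_
      rw [← pow_mul, ← pow_mul, ← pow_add]
      congr 1
      simp [mul_comm]
    rw [h1, ← hαc, ← hβc, hy, Units.val_div_eq_div_val, div_pow]
    have h2 : (α : L) ≠ 0 := α.ne_zero
    have h3 : (α : L) ^ d = (α : L) ^ (d - i) * (α : L) ^ i := by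
      rw [← pow_add]
      congr 1
      omega
    rw [h3]
    field_simp
  have hP : MvPolynomial.eval₂ f (fun j => (z j : L)) (binform C A B) =
      (α : L) ^ d * (C.map f).eval (y : L) := by
    unfold binform
    rw [MvPolynomial.eval₂_sum, Polynomial.eval_eq_sum_range, Polynomial.natDegree_map,
      Finset.mul_sum]
    refine Finset.sum_congr rfl fun i hi => ?_
    rw [MvPolynomial.eval₂_monomial, Finsupp.prod_fintype _ _ fun i => pow_zero _,
      hmon i (by rw [Finset.mem_range] at hi; omega), Polynomial.coeff_map]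
    ring
  obtain ⟨i, hi, rfl⟩ : ∃ i, i ≤ d ∧ m = (d - i) • A + i • B := by
    unfold binform at hm
    rw [MvPolynomial.mem_support_iff, MvPolynomial.coeff_sum] at hm
    obtain ⟨i, hi, hi2⟩ := Finset.exists_ne_zero_of_sum_ne_zero hm
    rw [MvPolynomial.coeff_monomial] at hi2
    refine ⟨i, by rw [Finset.mem_range] at hi; omega, ?_⟩
    by_contra hcon
    rw [if_neg (Ne.symm hcon)] at hi2
    exact hi2 rfl
  have hα0 : v (α : L) ≠ 0 := (Valuation.ne_zero_iff v).2 α.ne_zero
  have hlt2 : v ((C.map f).eval (y : L)) < v (y : L) ^ i := by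
    rw [hP, hmon i hi, map_mul, map_mul, map_pow, map_pow] at hlt
    exact lt_of_mul_lt_mul_left' hlt
  have hCm : (C.map f).Monic := hC.map f
  have hCf : ∀ j, v ((C.map f).coeff j) ≤ 1 := fun j => by
    rw [Polynomial.coeff_map]
    exact hCi j
  have hy1 : v (y : L) = 1 := by
    rcases lt_trichotomy (v (y : L)) 1 with h | h | h
    · exfalso
      rw [val_poly_small v hCf (by rw [Polynomial.coeff_map]; exact hC0) h] at hlt2
      exact absurd hlt2 (not_lt.2 (pow_le_one' h.le i))
    · exact h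
    · exfalso
      rw [val_poly v hCm hCf h, Polynomial.natDegree_map] at hlt2
      exact absurd hlt2 (not_lt.2 (pow_le_pow_right₀ h.le hi))
  rw [hy1, one_pow] at hlt2
  have hpow : v ((y : L) ^ N - 1) < 1 := by
    have h1 : (y : L) ^ N - 1 = (C.map f).eval (y : L) * (D.map f).eval (y : L) := by
      rw [← Polynomial.eval_mul, ← Polynomial.map_mul, ← hCD]
      simp
    have h2 : v ((D.map f).eval (y : L)) ≤ 1 := by
      rw [Polynomial.eval_eq_sum_range]
      refine Valuation.map_sum_le _ fun j _ => ?_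
      rw [map_mul, map_pow, hy1, one_pow, mul_one, Polynomial.coeff_map]
      exact hDi j
    rw [h1, map_mul]
    exact (mul_le_mul' le_rfl h2).trans_lt (by rw [mul_one]; exact hlt2)
  -- the symbol
  have hli : LinearIndependent ℚ fun (_ : Unit) (l : Fin S) =>
      (((B l : ℤ) - (A l : ℤ) : ℤ) : ℚ) := by
    rw [linearIndependent_unique_iff]
    intro h0
    apply hAB
    ext l
    have h1 := congrFun h0 l
    simp only [Pi.zero_apply, Int.cast_eq_zero] at h1
    omega
  refine mem_of_basis v z a _ hli (fun _ => y) (N := 1) one_ne_zero (fun _ => ?_)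
    fun p b _ hb => ?_
  · rw [pow_one, pow_one, hy, hα, hβ, ← Finset.prod_div_distrib]
    refine Finset.prod_congr rfl fun l _ => ?_
    rw [zpow_sub, zpow_natCast, zpow_natCast]
    rfl
  · refine mem_unitPart_of_pow v (p ()) b hN ?_
    rw [hb]
    exact hpow

end cyc

end Pool.Agent.T6.H24.TM
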