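import Mathlib
set_option autoImplicit false
set_option linter.unusedSectionVars false

/-!
Irreducibility of the polynomials `P(z) - w(z) Φ(x)`.
-/

namespace Pool.Agent.T6.H24.TM

open MvPolynomial

section irr

variable {K R σ : Type*} [Field K] [CommRing R] [IsDomain R] [WfDvdMonoid R] (φ : K →+* R)

/-- the polynomial `p - w Φ` -/
noncomputable def lin (p w : R) (F : MvPolynomial σ K) : MvPolynomial σ R :=
  C p - C w * map φ F

theorem coeff_lin [DecidableEq σ] (p w : R) (F : MvPolynomial σ K) (m : σ →₀ ℕ) :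
    coeff m (lin φ p w F) = (if m = 0 then p else 0) - w * φ (coeff m F) := by
  unfold lin
  rw [coeff_sub, coeff_C, coeff_C_mul, coeff_map]
  congr 1
  by_cases h : m = 0
  · rw [if_pos h, if_pos h.symm]
  · rw [if_neg h, if_neg (Ne.symm h)]

theorem irreducible_lin {p w : R} {F : MvPolynomial σ K} (hF : ∃ m, m ≠ 0 ∧ coeff m F ≠ 0)
    (π : R) (hπ : Prime π) (hw : π ∣ w) (hw2 : ¬ π * π ∣ w) (hp : ¬ π ∣ p)
    (hq : ∀ q, Irreducible q → q ∣ w → ¬ q ∣ p) : Irreducible (lin φ p w F) := by
  classical
  obtain ⟨m0, hm0, hm0F⟩ := hF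
  have hw0 : w ≠ 0 := by
    rintro rfl
    exact hw2 (dvd_zero _)
  have hφu : ∀ m, coeff m F ≠ 0 → IsUnit (φ (coeff m F)) := fun m h => (IsUnit.mk0 _ h).map φ
  have hc0 : coeff m0 (lin φ p w F) ≠ 0 := by
    rw [coeff_lin, if_neg hm0, zero_sub]
    exact neg_ne_zero.2 (mul_ne_zero hw0 (hφu m0 hm0F).ne_zero)
  refine ⟨fun hu => ?_, fun G H hGH => ?_⟩
  · obtain ⟨c, -, hc⟩ := isUnit_iff_eq_C_of_isReduced.1 hu
    apply hc0
    rw [hc, coeff_C, if_neg (Ne.symm hm0)]
  · -- reduction modulo `π`
    have hI : (Ideal.span {π}).IsPrime := (Ideal.span_singleton_prime hπ.ne_zero).2 hπ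
    have hmk : ∀ r : R, Ideal.Quotient.mk (Ideal.span {π}) r = 0 ↔ π ∣ r := fun r => by
      rw [Ideal.Quotient.eq_zero_iff_mem, Ideal.mem_span_singleton]
    have hmodF : map (Ideal.Quotient.mk (Ideal.span {π})) (lin φ p w F) =
        C (Ideal.Quotient.mk (Ideal.span {π}) p) := by
      unfold lin
      rw [map_sub, map_mul, map_C, map_C, (hmk w).2 hw, C_0, zero_mul, sub_zero]
    have hmodGH := hmodF
    rw [hGH, map_mul] at hmodGH
    have hne : (C (Ideal.Quotient.mk (Ideal.span {π}) p) :
        MvPolynomial σ (R ⧸ Ideal.span {π})) ≠ 0 := by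
      rw [Ne, C_eq_zero, hmk]
      exact hp
    have hG0 : map (Ideal.Quotient.mk (Ideal.span {π})) G ≠ 0 := by
      intro h0
      rw [h0, zero_mul] at hmodGH
      exact hne hmodGH.symm
    have hH0 : map (Ideal.Quotient.mk (Ideal.span {π})) H ≠ 0 := by
      intro h0
      rw [h0, mul_zero] at hmodGH
      exact hne hmodGH.symm
    have hdeg := totalDegree_mul_of_isDomain hG0 hH0
    rw [hmodGH, totalDegree_C] at hdeg
    have hcoef : ∀ (Q : MvPolynomial σ R),
        (map (Ideal.Quotient.mk (Ideal.span {π})) Q).totalDegree = 0 →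
        ∀ m, m ≠ 0 → π ∣ coeff m Q := by
      intro Q hQ m hm
      rw [totalDegree_eq_zero_iff_eq_C] at hQ
      rw [← hmk, ← coeff_map, hQ, coeff_C, if_neg (Ne.symm hm)]
    have hGc := hcoef G (by omega)
    have hHc := hcoef H (by omega)
    -- one of the degrees is zero
    have hF0 : lin φ p w F ≠ 0 := by
      intro h0
      apply hc0
      rw [h0, coeff_zero]
    have hG1 : G ≠ 0 := by
      rintro rfl
      exact hF0 (by rw [hGH, zero_mul])
    have hH1 : H ≠ 0 := by
      rintro rfl
      exact hF0 (by rw [hGH, mul_zero])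
    have hdegF : (lin φ p w F).totalDegree = G.totalDegree + H.totalDegree := by
      rw [hGH]
      exact totalDegree_mul_of_isDomain hG1 hH1
    have hdiv : ∀ h : R, h ≠ 0 → C h ∣ lin φ p w F → IsUnit h := by
      intro h hh hd
      have h1 : ∀ m, h ∣ coeff m (lin φ p w F) := fun m => (C_dvd_iff_dvd_coeff h _).1 hd m
      have h2 : h ∣ w := by
        have h3 := h1 m0
        rw [coeff_lin, if_neg hm0, zero_sub, dvd_neg] at h3
        exact (hφu m0 hm0F).dvd_mul_right.1 h3
      have h4 : h ∣ p := by
        have h3 := h1 0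
        rw [coeff_lin, if_pos rfl] at h3
        have h5 := dvd_add h3 (Dvd.dvd.mul_right h2 (φ (coeff 0 F)))
        rwa [sub_add_cancel] at h5
      by_contra hnu
      obtain ⟨q, hq1, hq2⟩ := WfDvdMonoid.exists_irreducible_factor hnu hh
      exact hq q hq1 (hq2.trans h2) (hq2.trans h4)
    have hor : G.totalDegree = 0 ∨ H.totalDegree = 0 := by
      by_contra hcon
      push Not at hcon
      obtain ⟨m, hm, hmd⟩ : ∃ m ∈ (lin φ p w F).support,
          (lin φ p w F).totalDegree = m.degree := by
        have hne : (lin φ p w F).support.Nonempty := support_nonempty.2 hF0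
        obtain ⟨m, hm, hmax⟩ := Finset.exists_mem_eq_sup _ hne
          (fun s : σ →₀ ℕ => s.sum fun _ e => e)
        exact ⟨m, hm, by rw [totalDegree, hmax]; rfl⟩
      have hm0' : m ≠ 0 := by
        rintro rfl
        rw [hdegF] at hmd
        simp at hmd
        omega
      have h1 : coeff m (lin φ p w F) = -(w * φ (coeff m F)) := by
        rw [coeff_lin, if_neg hm0', zero_sub]
      have h2 : coeff m F ≠ 0 := by
        intro h0
        rw [mem_support_iff, h1, h0, map_zero, mul_zero, neg_zero] at hm
        exact hm rfl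
      have h3 : π * π ∣ coeff m (G * H) := by
        rw [coeff_mul]
        refine Finset.dvd_sum fun x hx => ?_
        rw [Finset.HasAntidiagonal.mem_antidiagonal] at hx
        by_cases hx1 : coeff x.1 G = 0
        · rw [hx1, zero_mul]
          exact dvd_zero _
        · by_cases hx2 : coeff x.2 H = 0
          · rw [hx2, mul_zero]
            exact dvd_zero _
          · have h4 := le_totalDegree (mem_support_iff.2 hx1)
            have h5 := le_totalDegree (mem_support_iff.2 hx2)
            have h6 : x.1.degree + x.2.degree = m.degree := by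
              rw [← hx, map_add]
            have h4' : x.1.degree ≤ G.totalDegree := h4
            have h5' : x.2.degree ≤ H.totalDegree := h5
            refine mul_dvd_mul (hGc _ ?_) (hHc _ ?_)
            · rintro h0
              rw [h0, map_zero] at h6
              omega
            · rintro h0
              rw [h0, map_zero] at h6
              omega
      rw [← hGH, h1, dvd_neg, (hφu m h2).dvd_mul_right] at h3
      exact hw2 h3
    rcases hor with h | h
    · left
      rw [totalDegree_eq_zero_iff_eq_C] at h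
      rw [h]
      refine (hdiv _ ?_ ?_).map C
      · intro h0
        rw [h0, C_0] at h
        exact hG1 h
      · rw [← h, hGH]
        exact dvd_mul_right _ _
    · right
      rw [totalDegree_eq_zero_iff_eq_C] at h
      rw [h]
      refine (hdiv _ ?_ ?_).map C
      · intro h0
        rw [h0, C_0] at h
        exact hH1 h
      · rw [← h, hGH]
        exact dvd_mul_left _ _

/-- the polynomial `p - w Φ` does not divide `z Φ` -/
theorem not_dvd_lin {p w z : R} {F : MvPolynomial σ K} (hF : ∃ m, m ≠ 0 ∧ coeff m F ≠ 0)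
    (hw : w ≠ 0) (hp : p ≠ 0) (hz : z ≠ 0) : ¬ lin φ p w F ∣ map φ F * C z := by
  classical
  rintro ⟨G, hG⟩
  obtain ⟨m0, hm0, hm0F⟩ := hF
  have hφu : ∀ m, coeff m F ≠ 0 → IsUnit (φ (coeff m F)) := fun m h => (IsUnit.mk0 _ h).map φ
  have hmF : map φ F ≠ 0 := by
    intro h0
    have h1 := congrArg (coeff m0) h0
    rw [coeff_map, coeff_zero] at h1
    exact (hφu m0 hm0F).ne_zero h1
  have hprod : map φ F * C z ≠ 0 := mul_ne_zero hmF (C_eq_zero.not.2 hz)
  have hl0 : lin φ p w F ≠ 0 := by
    intro h0
    rw [h0, zero_mul] at hG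
    exact hprod hG
  have hG0 : G ≠ 0 := by
    rintro rfl
    rw [mul_zero] at hG
    exact hprod hG
  have hd1 := totalDegree_mul_of_isDomain hl0 hG0
  have hd2 := totalDegree_mul_of_isDomain hmF (C_eq_zero.not.2 hz)
  rw [totalDegree_C, add_zero] at hd2
  rw [← hG, hd2] at hd1
  have hge : (map φ F).totalDegree ≤ (lin φ p w F).totalDegree := by
    by_cases h0 : (map φ F).totalDegree = 0
    · rw [h0]
      exact Nat.zero_le _
    · have hne : (map φ F).support.Nonempty := support_nonempty.2 hmF
      obtain ⟨m, hm, hmax⟩ := Finset.exists_mem_eq_sup _ hne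
        (fun s : σ →₀ ℕ => s.sum fun _ e => e)
      have hmd : (map φ F).totalDegree = m.sum fun _ e => e := by
        rw [totalDegree, hmax]
      have hm0' : m ≠ 0 := by
        rintro rfl
        rw [Finsupp.sum_zero_index] at hmd
        exact h0 hmd
      rw [hmd]
      refine le_totalDegree ?_
      rw [mem_support_iff, coeff_lin, if_neg hm0', zero_sub]
      rw [mem_support_iff, coeff_map] at hm
      exact neg_ne_zero.2 (mul_ne_zero hw hm)
  have hGd : G.totalDegree = 0 := by omega
  rw [totalDegree_eq_zero_iff_eq_C] at hGd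
  set g : R := coeff 0 G with hg
  rw [hGd] at hG
  rw [mul_comm _ (C z), mul_comm _ (C g)] at hG
  have e1 := congrArg (coeff m0) hG
  rw [coeff_C_mul, coeff_C_mul, coeff_map, coeff_lin, if_neg hm0, zero_sub] at e1
  have e2 := congrArg (coeff 0) hG
  rw [coeff_C_mul, coeff_C_mul, coeff_map, coeff_lin, if_pos rfl] at e2
  have e3 : z = -(w * g) := by
    refine (hφu m0 hm0F).mul_left_cancel ?_
    linear_combination e1
  have e4 : p * g = 0 := by
    rw [e3] at e2
    linear_combination -e2
  rcases mul_eq_zero.1 e4 with h | h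
  · exact hp h
  · rw [h, mul_zero, neg_zero] at e3
    exact hz e3

end irr

end Pool.Agent.T6.H24.TM
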