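import Pool.Agent.T6.H24.TM.Ring
import Pool.Agent.Y797.GC.Sard
set_option autoImplicit false

/-!
Smoothness of the open part of the fibrations for large `λ`; evaluation of the functions at complex
points, and tori in the fibrations.
-/

namespace Pool.Agent.T6.H24.TM

open Pool.Agent.TH826.MK

open Pool.Agent.Y797.TW (Tower)

open Pool.Agent.T6.H53.CT (bPhi)

section frac

open MvPolynomial

variable {ι : Type*}

theorem pderiv_inr_rename {τ : Type*} (b : τ) (p : MvPolynomial ι ℂ) :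
    pderiv (Sum.inr b : ι ⊕ τ) (rename Sum.inl p) = 0 := by
  induction p using MvPolynomial.induction_on with
  | C y => rw [rename_C, pderiv_C]
  | add p q hp hq => rw [map_add, map_add, hp, hq, add_zero]
  | mul_X p k hp =>
    rw [map_mul, Derivation.leibniz, hp, rename_X, pderiv_X_of_ne (by simp)]
    simp

/-- The quotient `U / V` has no critical points of small value, different from `0`, at which `V` does
not vanish. -/
theorem exists_level_frac [Finite ι] (U V : MvPolynomial ι ℂ) :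
    ∃ ε : ℝ, 0 < ε ∧ ∀ η : ℂ, η ≠ 0 → ‖η‖ < ε → ∀ p : ι → ℂ, eval p U = η * eval p V →
      eval p V ≠ 0 → ∃ i, eval p (pderiv i V) * η ≠ eval p (pderiv i U) := by
  set E : MvPolynomial (ι ⊕ Bool) ℂ := rename Sum.inl U * X (Sum.inr true) +
    X (Sum.inr false) * (rename Sum.inl V * X (Sum.inr true) - 1) with hE
  obtain ⟨ε, hε, h⟩ := Pool.Agent.Y797.GC.exists_level E
  refine ⟨ε, hε, fun η hη hη2 p hp hV => ?_⟩
  set q : ι ⊕ Bool → ℂ := Sum.elim p fun b => if b then (eval p V)⁻¹ else -η with hq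
  have hqt : q (Sum.inr true) = (eval p V)⁻¹ := by simp [hq]
  have hqf : q (Sum.inr false) = -η := by simp [hq]
  have hren : ∀ Q : MvPolynomial ι ℂ, eval q (rename Sum.inl Q) = eval p Q := by
    intro Q
    rw [eval_rename]
    rfl
  have hval : eval q E = η := by
    rw [hE]
    simp only [map_add, map_mul, map_sub, map_one, hren, eval_X, hqt, hqf]
    rw [hp]
    field_simp
    ring
  obtain ⟨i, hi⟩ := h η hη hη2 q hval
  have hl := fun (j : ι) (Q : MvPolynomial ι ℂ) => pderiv_rename (R := ℂ)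
    (Sum.inl_injective (α := ι) (β := Bool)) j Q
  rcases i with i | b
  · refine ⟨i, fun h0 => hi ?_⟩
    rw [hE, map_add, Derivation.leibniz, Derivation.leibniz, hl, map_sub, Derivation.leibniz, hl,
      pderiv_X_of_ne (by simp), pderiv_X_of_ne (by simp), pderiv_one]
    simp only [smul_eq_mul, mul_zero, zero_add, add_zero, sub_zero, map_add, map_mul, hren,
      eval_X, hqt, hqf]
    rw [← h0]
    ring
  · exfalso
    apply hi
    cases b with
    | true =>
      rw [hE, map_add, Derivation.leibniz, Derivation.leibniz, pderiv_inr_rename, map_sub,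
        Derivation.leibniz, pderiv_inr_rename, pderiv_X_self, pderiv_X_of_ne (by simp),
        pderiv_one]
      simp only [smul_eq_mul, mul_zero, add_zero, sub_zero, mul_one, map_add, map_mul, hren,
        eval_X, hqf]
      rw [hp]
      ring
    | false =>
      rw [hE, map_add, Derivation.leibniz, Derivation.leibniz, pderiv_inr_rename, map_sub,
        Derivation.leibniz, pderiv_inr_rename, pderiv_X_self, pderiv_X_of_ne (by simp),
        pderiv_one]
      simp only [smul_eq_mul, mul_zero, zero_add, add_zero, sub_zero, mul_one, map_sub, map_mul,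
        map_one, hren, eval_X, hqt]
      rw [mul_inv_cancel₀ hV, sub_self]

end frac

section eval

variable {K : Type*} [Field K] {S n : ℕ} {A : Tower K n} {lam : K} {P : MvPolynomial (Fin S) K}
  {w : Fin S → ℕ}

theorem eval_fPhi (σ : K →+* ℂ) (p : Fin (n + 1) ⊕ Fin S → ℂ) :
    MvPolynomial.eval₂ σ p (fPhi A lam S) =
      σ lam * MvPolynomial.eval₂ σ (fun j => p (Sum.inl j)) A.prod := by
  unfold fPhi bPhi
  rw [MvPolynomial.eval₂_rename, MvPolynomial.eval₂_mul, MvPolynomial.eval₂_C]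
  rfl

theorem eval_zall (σ : K →+* ℂ) (p : Fin (n + 1) ⊕ Fin S → ℂ) :
    MvPolynomial.eval₂ σ p (zall K S n) = ∏ j, p (Sum.inr j) := by
  unfold zall
  rw [MvPolynomial.eval₂_prod]
  simp only [MvPolynomial.eval₂_X]

theorem eval_zw (σ : K →+* ℂ) (p : Fin (n + 1) ⊕ Fin S → ℂ) :
    MvPolynomial.eval₂ σ p (MvPolynomial.rename Sum.inr (zw K w)) =
      ∏ j, p (Sum.inr j) ^ w j := by
  unfold zw
  rw [MvPolynomial.eval₂_rename, MvPolynomial.eval₂_prod]
  simp only [MvPolynomial.eval₂_pow, MvPolynomial.eval₂_X]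
  rfl

theorem eval_feqn (σ : K →+* ℂ) (p : Fin (n + 1) ⊕ Fin S → ℂ) :
    MvPolynomial.eval₂ σ p (feqn A lam P w) =
      MvPolynomial.eval₂ σ (fun j => p (Sum.inr j)) P -
      (σ lam * MvPolynomial.eval₂ σ (fun j => p (Sum.inl j)) A.prod) *
        ∏ j, p (Sum.inr j) ^ w j := by
  unfold feqn
  rw [MvPolynomial.eval₂_sub, MvPolynomial.eval₂_mul, eval_fPhi, eval_zw,
    MvPolynomial.eval₂_rename]
  rfl

/-- The complex points of the open part. -/
def FPt (σ : K →+* ℂ) (A : Tower K n) (lam : K) (P : MvPolynomial (Fin S) K) (w : Fin S → ℕ)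
    (p : Fin (n + 1) ⊕ Fin S → ℂ) : Prop :=
  MvPolynomial.eval₂ σ p (feqn A lam P w) = 0 ∧
    MvPolynomial.eval₂ σ p (fPhi A lam S * zall K S n) ≠ 0

/-- The open part is smooth for large `λ`. -/
theorem exists_smooth (σ : K →+* ℂ) (A : Tower K n) (P : MvPolynomial (Fin S) K)
    (w : Fin S → ℕ) : ∃ C : ℝ, 1 ≤ C ∧ ∀ lam : K, C ≤ ‖σ lam‖ →
      ∀ p : Fin (n + 1) ⊕ Fin S → ℂ, FPt σ A lam P w p →
        ∃ i, MvPolynomial.eval₂ σ p (MvPolynomial.pderiv i (feqn A lam P w)) ≠ 0 := by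
  set U0 : MvPolynomial (Fin (n + 1) ⊕ Fin S) K := MvPolynomial.rename Sum.inl A.prod *
    MvPolynomial.rename Sum.inr (zw K w) with hU0
  set V0 : MvPolynomial (Fin (n + 1) ⊕ Fin S) K := MvPolynomial.rename Sum.inr P with hV0
  obtain ⟨ε, hε, h⟩ := exists_level_frac (MvPolynomial.map σ U0) (MvPolynomial.map σ V0)
  have hinv : 0 < 1 / ε := by positivity
  refine ⟨1 / ε + 1, by linarith, fun lam hlam p hp => ?_⟩
  have hln : 0 < ‖σ lam‖ := by linarith
  have hl0 : σ lam ≠ 0 := norm_pos_iff.1 hln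
  have hη : ‖(σ lam)⁻¹‖ < ε := by
    rw [norm_inv, inv_lt_comm₀ hln hε, ← one_div]
    linarith
  have hfeq : feqn A lam P w = V0 - MvPolynomial.C lam * U0 := by
    unfold feqn fPhi bPhi
    rw [map_mul, MvPolynomial.rename_C, hU0, hV0, mul_assoc]
  obtain ⟨h1, h2⟩ := hp
  have e1 : MvPolynomial.eval₂ σ p V0 = σ lam * MvPolynomial.eval₂ σ p U0 := by
    rw [hfeq, MvPolynomial.eval₂_sub, MvPolynomial.eval₂_mul, MvPolynomial.eval₂_C,
      sub_eq_zero] at h1
    exact h1
  have e2 : MvPolynomial.eval₂ σ p U0 ≠ 0 := by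
    rw [MvPolynomial.eval₂_mul, eval_fPhi, eval_zall] at h2
    rw [hU0, MvPolynomial.eval₂_mul, eval_zw, MvPolynomial.eval₂_rename]
    refine mul_ne_zero ?_ (Finset.prod_ne_zero_iff.2 fun j _ => pow_ne_zero _ ?_)
    · exact right_ne_zero_of_mul (left_ne_zero_of_mul h2)
    · exact (Finset.prod_ne_zero_iff.1 (right_ne_zero_of_mul h2)) j (Finset.mem_univ j)
  obtain ⟨i, hi⟩ := h _ (inv_ne_zero hl0) hη p
    (by rw [MvPolynomial.eval_map, MvPolynomial.eval_map, e1, inv_mul_cancel_left₀ hl0])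
    (by rw [MvPolynomial.eval_map, e1]; exact mul_ne_zero hl0 e2)
  refine ⟨i, fun h0 => hi ?_⟩
  rw [hfeq, map_sub, MvPolynomial.pderiv_C_mul, MvPolynomial.eval₂_sub, MvPolynomial.eval₂_mul,
    MvPolynomial.eval₂_C, sub_eq_zero] at h0
  rw [MvPolynomial.pderiv_map, MvPolynomial.pderiv_map, MvPolynomial.eval_map,
    MvPolynomial.eval_map, h0, mul_comm, inv_mul_cancel_left₀ hl0]

end eval

section Ev

variable {K : Type*} [Field K] {S n N : ℕ} {σ : K →+* ℂ} {A : Tower K n} {lam : K}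
  {P : MvPolynomial (Fin S) K} {w : Fin S → ℕ}

/-- evaluation of the regular functions on the hypersurface -/
noncomputable def FPt.evB {p : Fin (n + 1) ⊕ Fin S → ℂ} (hx : FPt σ A lam P w p) :
    FRing A lam P w →+* ℂ :=
  Ideal.Quotient.lift (Ideal.span {feqn A lam P w}) (MvPolynomial.eval₂Hom σ p) (by
    intro q hq
    have hle : Ideal.span {feqn A lam P w} ≤ RingHom.ker (MvPolynomial.eval₂Hom σ p) := by
      rw [Ideal.span_le]
      rintro q rfl
      exact hx.1
    exact hle hq)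

theorem FPt.evB_fpol {p : Fin (n + 1) ⊕ Fin S → ℂ} (hx : FPt σ A lam P w p)
    (q : MvPolynomial (Fin (n + 1) ⊕ Fin S) K) :
    hx.evB (fpol A lam P w q) = MvPolynomial.eval₂Hom σ p q :=
  Ideal.Quotient.lift_mk _ _ _

theorem FPt.evB_ne {p : Fin (n + 1) ⊕ Fin S → ℂ} (hx : FPt σ A lam P w p) :
    hx.evB (fdel A lam P w) ≠ 0 := by
  unfold fdel
  rw [hx.evB_fpol]
  exact hx.2

/-- evaluation of the regular functions on the open part -/
noncomputable def FPt.evA {p : Fin (n + 1) ⊕ Fin S → ℂ} (hx : FPt σ A lam P w p) :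
    FOpen A lam P w →+* ℂ :=
  liftF hx.evB hx.evB_ne

theorem FPt.evA_toF {p : Fin (n + 1) ⊕ Fin S → ℂ} (hx : FPt σ A lam P w p)
    (b : FRing A lam P w) : hx.evA (toF A lam P w b) = hx.evB b :=
  liftF_toF _ _ _

theorem FPt.evA_congr {p q : Fin (n + 1) ⊕ Fin S → ℂ} (hx : FPt σ A lam P w p)
    (hy : FPt σ A lam P w q) (h : p = q) : hx.evA = hy.evA := by
  subst h
  rfl

theorem FPt.evA_fcst {p : Fin (n + 1) ⊕ Fin S → ℂ} (hx : FPt σ A lam P w p) (y : K) :
    hx.evA (fcst A lam P w y) = σ y := by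
  show hx.evA (toF A lam P w (fpol A lam P w (MvPolynomial.C y))) = _
  rw [hx.evA_toF, hx.evB_fpol]
  simp

theorem FPt.evA_fz {p : Fin (n + 1) ⊕ Fin S → ℂ} (hx : FPt σ A lam P w p)
    (j : Fin S) : hx.evA (fz A lam P w j : FOpen A lam P w) = p (Sum.inr j) := by
  rw [coe_fz, hx.evA_toF, hx.evB_fpol]
  simp

theorem FPt.evA_fu {p : Fin (n + 1) ⊕ Fin S → ℂ} (hx : FPt σ A lam P w p)
    (j : Fin (n + 1)) (i : Fin (A.r j + 1)) : hx.evA (fu A lam P w j i : FOpen A lam P w) =
      MvPolynomial.eval₂ σ (fun j => p (Sum.inl j)) (A.fac j i) := by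
  rw [coe_fu, hx.evA_toF, hx.evB_fpol]
  show MvPolynomial.eval₂ σ p (MvPolynomial.rename Sum.inl (A.fac j i)) = _
  rw [MvPolynomial.eval₂_rename]
  rfl

theorem contDiff_evA {p : (Fin N → ℝ) → (Fin (n + 1) ⊕ Fin S → ℂ)} (hc : ContDiff ℝ 2 p)
    (hx : ∀ θ, FPt σ A lam P w (p θ)) (h : FOpen A lam P w) :
    ContDiff ℝ 2 fun θ => (hx θ).evA h := by
  have hxk : ∀ k, ContDiff ℝ 2 fun θ => p θ k := fun k => contDiff_pi.1 hc k
  have hmv : ∀ q : MvPolynomial (Fin (n + 1) ⊕ Fin S) K,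
      ContDiff ℝ 2 fun θ => MvPolynomial.eval₂Hom σ (p θ) q := by
    intro q
    induction q using MvPolynomial.induction_on with
    | C c => simpa using contDiff_const
    | add p q hp hq => simpa using hp.add hq
    | mul_X p k hp => simpa using hp.mul (hxk k)
  have hB : ∀ b : FRing A lam P w, ContDiff ℝ 2 fun θ => (hx θ).evB b := by
    intro b
    obtain ⟨q, hq⟩ := Ideal.Quotient.mk_surjective b
    have e : (fun θ => (hx θ).evB b) = fun θ => MvPolynomial.eval₂Hom σ (p θ) q := by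
      funext θ
      rw [← hq]
      exact (hx θ).evB_fpol q
    rw [e]
    exact hmv q
  obtain ⟨q, hq⟩ := AdjoinRoot.mk_surjective (g := feqnO A lam P w) h
  have e : (fun θ => (hx θ).evA h) = fun θ =>
      ∑ i ∈ Finset.range (q.natDegree + 1), (hx θ).evB (q.coeff i) *
        ((hx θ).evB (fdel A lam P w))⁻¹ ^ i := by
    funext θ
    rw [← hq]
    unfold FPt.evA
    rw [liftF_mk, Polynomial.eval₂_eq_sum_range]
  rw [e]
  exact ContDiff.sum fun i _ => (hB _).mul
    (((hB _).inv fun θ => (hx θ).evB_ne).pow i)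

/-- a torus in the hypersurface -/
noncomputable def mkF (p : (Fin N → ℝ) → (Fin (n + 1) ⊕ Fin S → ℂ)) (hc : ContDiff ℝ 2 p)
    (hp : ∀ θ i, p (θ + Pi.single i 1) = p θ)
    (hx : ∀ θ, FPt σ A lam P w (p θ)) : Torus (FOpen A lam P w) N where
  e θ := (hx θ).evA
  smooth h := contDiff_evA hc hx h
  periodic θ i := FPt.evA_congr _ _ (hp θ i)

variable (p : (Fin N → ℝ) → (Fin (n + 1) ⊕ Fin S → ℂ)) (hc : ContDiff ℝ 2 p)
    (hp : ∀ θ i, p (θ + Pi.single i 1) = p θ)
    (hx : ∀ θ, FPt σ A lam P w (p θ))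

theorem mkF_fu (j : Fin (n + 1)) (i : Fin (A.r j + 1)) :
    (mkF p hc hp hx).fn (fu A lam P w j i : FOpen A lam P w) =
      fun θ => MvPolynomial.eval₂ σ (fun j => p θ (Sum.inl j)) (A.fac j i) := by
  funext θ
  exact (hx θ).evA_fu j i

theorem mkF_fz (j : Fin S) :
    (mkF p hc hp hx).fn (fz A lam P w j : FOpen A lam P w) = fun θ => p θ (Sum.inr j) := by
  funext θ
  exact (hx θ).evA_fz j

end Ev

end Pool.Agent.T6.H24.TM
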