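import Pool.Agent.T6.H24.TM.Ring
import Pool.Agent.T6.H53.CT.Unr
set_option autoImplicit false

/-!
The symbols on the fibrations are unramified at all discrete valuations.
-/

namespace Pool.Agent.T6.H24.TM

open scoped WithZero

open Pool.Agent.TH826.MK

open Pool.Agent.TH333.CY (all_one)

open Pool.Agent.Y797.TW (Tower)

open Pool.Agent.T6.H53.CT (bPhi Scales ScalesG val_le_one_scaled)

universe u v

/-- The exponent `w` lies in the interior of the Newton polytope of `P`: for every weight `ω ≠ 0`
there is a monomial of `P` of smaller weight than `z^w`. -/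
def Interior {K : Type*} [Field K] {S : ℕ} (P : MvPolynomial (Fin S) K) (w : Fin S → ℕ) : Prop :=
  ∀ ω : Fin S → ℤ, ω ≠ 0 → ∃ m ∈ P.support, ∑ j, ω j * (m j : ℤ) < ∑ j, ω j * (w j : ℤ)

theorem exp_sum {ι : Type*} (T : Finset ι) (a : ι → ℤ) :
    ∏ j ∈ T, (WithZero.exp (a j) : ℤᵐ⁰) = WithZero.exp (∑ j ∈ T, a j) := by
  classical
  induction T using Finset.induction_on with
  | empty => rw [Finset.prod_empty, Finset.sum_empty, WithZero.exp_zero]
  | insert j T hj ih => rw [Finset.prod_insert hj, Finset.sum_insert hj, ih, WithZero.exp_add]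

theorem hom_eval₂ {K L σ : Type*} [CommRing K] [CommRing L] (G : MvPolynomial σ K →+* L)
    (p : MvPolynomial σ K) :
    G p = p.eval₂ (G.comp MvPolynomial.C) fun j => G (MvPolynomial.X j) := by
  have h : G = MvPolynomial.eval₂Hom (G.comp MvPolynomial.C) (fun j => G (MvPolynomial.X j)) :=
    MvPolynomial.ringHom_ext (by simp) (by simp)
  conv_lhs => rw [h]
  rfl

section Unram

variable {K : Type u} [Field K] {S n : ℕ} {A : Tower K n} {lam : K} {P : MvPolynomial (Fin S) K}
  {w : Fin S → ℕ}

variable {L : Type v} [Field L] (f : FOpen A lam P w →+* L)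

/-- the composite map from the polynomials -/
noncomputable def pT : MvPolynomial (Fin (n + 1) ⊕ Fin S) K →+* L :=
  (f.comp (toF A lam P w)).comp (fpol A lam P w)

/-- the composite map from the polynomials in `x_0, ..., x_n` -/
noncomputable def xT : MvPolynomial (Fin (n + 1)) K →+* L :=
  (pT f).comp (MvPolynomial.rename (Sum.inl : Fin (n + 1) → Fin (n + 1) ⊕ Fin S)).toRingHom

/-- the composite map from the coefficient field -/
noncomputable def cT : K →+* L := f.comp (fcst A lam P w)

theorem xT_apply (p : MvPolynomial (Fin (n + 1)) K) :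
    xT f p = pT f (MvPolynomial.rename Sum.inl p) := rfl

theorem xT_C (y : K) : xT f (MvPolynomial.C y) = cT f y := by
  rw [xT_apply, MvPolynomial.rename_C]
  rfl

theorem zT_ne_zero (j : Fin S) : pT f (MvPolynomial.X (Sum.inr j)) ≠ 0 :=
  ((isUnit_fz A lam P w j).map f).ne_zero

theorem fac_ne_zero (j : Fin (n + 1)) (i : Fin (A.r j + 1)) : xT f (A.fac j i) ≠ 0 := by
  rw [xT_apply]
  exact ((isUnit_fu A lam P w j i).map f).ne_zero

theorem xT_bPhi : xT f (bPhi A lam) =
    (cT f lam * xT f A.g) * ∏ j, ∏ i, xT f (A.fac j i) := by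
  unfold bPhi Tower.prod
  rw [map_mul, map_mul, xT_C, mul_assoc]
  simp only [map_prod]

theorem pT_P (Q : MvPolynomial (Fin S) K) : pT f (MvPolynomial.rename Sum.inr Q) =
    Q.eval₂ (cT f) fun j => pT f (MvPolynomial.X (Sum.inr j)) := by
  have h := hom_eval₂ ((pT f).comp
    (MvPolynomial.rename (Sum.inr : Fin S → Fin (n + 1) ⊕ Fin S)).toRingHom) Q
  have h2 : ((pT f).comp
      (MvPolynomial.rename (Sum.inr : Fin S → Fin (n + 1) ⊕ Fin S)).toRingHom) Q =
      pT f (MvPolynomial.rename Sum.inr Q) := rfl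
  rw [← h2, h]
  congr 1
  · ext x
    show pT f (MvPolynomial.rename Sum.inr (MvPolynomial.C x)) = cT f x
    rw [MvPolynomial.rename_C]
    rfl
  · funext j
    show pT f (MvPolynomial.rename Sum.inr (MvPolynomial.X j)) = _
    rw [MvPolynomial.rename_X]

theorem feqn_eq : P.eval₂ (cT f) (fun j => pT f (MvPolynomial.X (Sum.inr j))) =
    xT f (bPhi A lam) * ∏ j, pT f (MvPolynomial.X (Sum.inr j)) ^ w j := by
  have h : pT f (feqn A lam P w) = 0 := by
    show f (toF A lam P w (fpol A lam P w (feqn A lam P w))) = 0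
    rw [fpol_feqn, map_zero, map_zero]
  unfold feqn at h
  rw [map_sub, sub_eq_zero, pT_P, map_mul] at h
  rw [h]
  congr 1
  unfold zw
  rw [map_prod, map_prod]
  refine Finset.prod_congr rfl fun j _ => ?_
  rw [map_pow, map_pow, MvPolynomial.rename_X]

/-- The symbols are unramified at all discrete valuations. -/
theorem symb_mem_unitPart (hG : A.Graphs) {D : Fin (n + 1) → K} (hS : Scales A D)
    (hSG : ScalesG A D lam) (hT : Tempered.{u, v} P) (hI : Interior P w) (hP0 : P ≠ 0)
    (v : Valuation L ℤᵐ⁰) (k : ∀ j, Fin (A.r j)) :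
    symb (fun l => Units.map (f : FOpen A lam P w →* L) (fent A lam P w k l)) ∈
      unitPart v (S + (n + 1)) := by
  classical
  obtain ⟨hD0, hDi⟩ := hS
  set z : Fin S → Lˣ := fun j => Units.map (f : FOpen A lam P w →* L) (fz A lam P w j)
    with hz
  set u : (j : Fin (n + 1)) → Fin (A.r j + 1) → Lˣ :=
    fun j i => Units.map (f : FOpen A lam P w →* L) (fu A lam P w j i) with hu
  have hzv : ∀ j, (z j : L) = pT f (MvPolynomial.X (Sum.inr j)) := fun j => rfl
  have huv : ∀ j i, (u j i : L) = xT f (A.fac j i) := fun j i => rfl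
  have hent : (fun l => Units.map (f : FOpen A lam P w →* L) (fent A lam P w k l)) =
      Fin.append z fun j : Fin (n + 1) => u j (k j).succ / u j 0 := by
    funext l
    unfold fent
    refine Fin.addCases (fun j => ?_) (fun j => ?_) l
    · rw [Fin.append_left, Fin.append_left]
    · rw [Fin.append_right, Fin.append_right]
      exact map_div (Units.map (f : FOpen A lam P w →* L)) _ _
  rw [hent]
  -- the scaled coordinates
  set y : Fin (n + 1) → L := fun j => xT f (MvPolynomial.C (D j)) * xT f (MvPolynomial.X j)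
    with hy
  have hDne : ∀ j, xT f (MvPolynomial.C (D j)) ≠ 0 := fun j => by
    rw [xT_C]
    exact (map_ne_zero (cT f)).2 (hD0 j)
  have hfac : ∀ j i, xT f (MvPolynomial.C (D j)) * xT f (A.fac j i) =
      y j - xT f (MvPolynomial.C (D j)) * xT f (A.phi j i) := fun j i => by
    unfold Tower.fac
    rw [map_sub, mul_sub]
  by_cases hB : ∃ j, 1 < v (y j)
  · -- the last one
    have hne : (Finset.univ.filter fun j : Fin (n + 1) => 1 < v (y j)).Nonempty := by
      obtain ⟨j, hj⟩ := hB
      exact ⟨j, Finset.mem_filter.2 ⟨Finset.mem_univ _, hj⟩⟩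
    set j := (Finset.univ.filter fun j : Fin (n + 1) => 1 < v (y j)).max' hne with hjdef
    have hj : 1 < v (y j) := (Finset.mem_filter.1 (Finset.max'_mem _ hne)).2
    have hlt : ∀ l, j < l → v (y l) ≤ 1 := by
      intro l hl
      by_contra hcon
      refine absurd (Finset.le_max' _ l (Finset.mem_filter.2 ⟨Finset.mem_univ _, ?_⟩))
        (not_le.2 hl)
      exact not_le.1 hcon
    have hphi : ∀ i, v (xT f (MvPolynomial.C (D j)) * xT f (A.phi j i)) ≤ 1 := fun i =>
      val_le_one_scaled (xT f) v hD0 (hDi j i) fun l hl => hlt l (hG.1 j i l hl)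
    refine mem_unitPart_of_oneUnit' v (Fin.natAdd S j) _ ?_
    rw [Fin.append_right, Units.val_div_eq_div_val, huv, huv,
      div_sub_one (fac_ne_zero f j 0), ← mul_div_mul_left _ _ (hDne j), mul_sub, hfac, hfac,
      map_div₀]
    have h1 : v (y j - xT f (MvPolynomial.C (D j)) * xT f (A.phi j 0)) = v (y j) :=
      Valuation.map_sub_eq_of_lt_left v ((hphi 0).trans_lt hj)
    have h2 : v (y j - xT f (MvPolynomial.C (D j)) * xT f (A.phi j (k j).succ) -
        (y j - xT f (MvPolynomial.C (D j)) * xT f (A.phi j 0))) ≤ 1 := by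
      have e : y j - xT f (MvPolynomial.C (D j)) * xT f (A.phi j (k j).succ) -
        (y j - xT f (MvPolynomial.C (D j)) * xT f (A.phi j 0)) =
        xT f (MvPolynomial.C (D j)) * xT f (A.phi j 0) -
          xT f (MvPolynomial.C (D j)) * xT f (A.phi j (k j).succ) := by ring
      rw [e]
      exact (v.map_sub _ _).trans (max_le (hphi _) (hphi _))
    rw [h1]
    have h3 : 0 < v (y j) := zero_lt_one.trans hj
    rw [div_lt_one₀ h3]
    exact h2.trans_lt hj
  · push Not at hB
    have hphi : ∀ j i, v (xT f (MvPolynomial.C (D j)) * xT f (A.phi j i)) ≤ 1 := fun j i =>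
      val_le_one_scaled (xT f) v hD0 (hDi j i) fun l _ => hB l
    have hsub : ∀ j i, v (xT f (MvPolynomial.C (D j)) * xT f (A.fac j i)) ≤ 1 := fun j i => by
      rw [hfac]
      exact (v.map_sub _ _).trans (max_le (hB j) (hphi j i))
    set q : L := xT f (MvPolynomial.C (lam / ∏ j, D j ^ (A.r j + 1))) * xT f A.g with hq
    have hq1 : v q ≤ 1 := by
      refine val_le_one_scaled (xT f) v hD0 (fun m => ?_) fun l _ => hB l
      have h1 := hSG m
      have e : lam / (∏ j, D j ^ (A.r j + 1)) * A.g.coeff m / ∏ l, D l ^ m l =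
          lam * A.g.coeff m / ((∏ l, D l ^ m l) * ∏ j, D j ^ (A.r j + 1)) := by
        rw [div_mul_eq_mul_div, div_div, mul_comm (∏ j, D j ^ (A.r j + 1))]
      rw [e]
      exact h1
    have hPD : (∏ j, D j ^ (A.r j + 1)) ≠ 0 :=
      Finset.prod_ne_zero_iff.2 fun j _ => pow_ne_zero _ (hD0 j)
    have hPhieq : xT f (bPhi A lam) = q * ∏ e : (j : Fin (n + 1)) × Fin (A.r j + 1),
        (xT f (MvPolynomial.C (D e.1)) * xT f (A.fac e.1 e.2)) := by
      rw [xT_bPhi, Fintype.prod_sigma, hq]
      simp only [Finset.prod_mul_distrib, Finset.prod_const, Finset.card_univ, Fintype.card_fin]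
      have e1 : ∏ j, xT f (MvPolynomial.C (D j)) ^ (A.r j + 1) =
          cT f (∏ j, D j ^ (A.r j + 1)) := by
        simp only [xT_C, map_prod, map_pow]
      rw [e1, xT_C, map_div₀]
      have h2 : cT f (∏ j, D j ^ (A.r j + 1)) ≠ 0 := (map_ne_zero (cT f)).2 hPD
      field_simp
    have hPhi : v (xT f (bPhi A lam)) ≤ 1 := by
      rw [hPhieq, map_mul, map_prod]
      exact mul_le_one' hq1 (Finset.prod_le_one' fun e _ => hsub e.1 e.2)
    by_cases hlt : ∃ m ∈ P.support, v (P.eval₂ (cT f) fun j => (z j : L)) <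
        v (∏ j, (z j : L) ^ m j)
    · exact hT L (cT f) v z hlt (n + 1) _
    · push Not at hlt
      have heq : P.eval₂ (cT f) (fun j => (z j : L)) =
          xT f (bPhi A lam) * ∏ j, (z j : L) ^ w j := feqn_eq f
      -- all `z_j` are units
      choose o ho using fun j => exists_ord v (z j)
      have hmon : ∀ m : Fin S → ℕ, v (∏ j, (z j : L) ^ m j) =
          WithZero.exp (∑ j, o j * (m j : ℤ)) := by
        intro m
        rw [map_prod]
        have h1 : ∀ j, v ((z j : L) ^ m j) = WithZero.exp (o j * (m j : ℤ)) := by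
          intro j
          rw [map_pow, ho, ← WithZero.exp_nsmul]
          congr 1
          rw [nsmul_eq_mul]
          ring
        simp only [h1]
        rw [exp_sum]
      have ho0 : o = 0 := by
        by_contra hne
        obtain ⟨m, hm, hmlt⟩ := hI (fun j => -o j) (fun h0 => hne (by
          funext j
          have h1 := congrFun h0 j
          simp only [Pi.zero_apply, neg_eq_zero] at h1
          exact h1))
        have h1 := hlt m hm
        rw [heq, map_mul, hmon fun j => m j, hmon w] at h1
        have h2 : WithZero.exp (∑ j, o j * (m j : ℤ)) ≤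
            WithZero.exp (∑ j, o j * (w j : ℤ)) :=
          h1.trans ((mul_le_mul' hPhi le_rfl).trans (one_mul _).le)
        rw [WithZero.exp_le_exp] at h2
        simp only [neg_mul, Finset.sum_neg_distrib] at hmlt
        linarith
      have hz1 : ∀ j, v (z j : L) = 1 := by
        intro j
        rw [ho, ho0]
        rfl
      have hmon1 : ∀ m : Fin S → ℕ, v (∏ j, (z j : L) ^ m j) = 1 := by
        intro m
        rw [map_prod]
        refine Finset.prod_eq_one fun j _ => ?_
        rw [map_pow, hz1, one_pow]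
      have hP1 : v (xT f (bPhi A lam)) = 1 := by
        obtain ⟨m, hm⟩ := MvPolynomial.support_nonempty.2 hP0
        have h1 := hlt m hm
        rw [heq, map_mul, hmon1 w, mul_one, hmon1 fun j => m j] at h1
        exact le_antisymm hPhi h1
      rw [hPhieq, map_mul, map_prod] at hP1
      obtain ⟨-, hl1⟩ := all_one (fun e : (j : Fin (n + 1)) × Fin (A.r j + 1) => hsub e.1 e.2)
        hq1 hP1
      refine Submodule.subset_span ⟨_, fun l => ?_, rfl⟩
      refine Fin.addCases (fun j => ?_) (fun j => ?_) l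
      · rw [Fin.append_left]
        exact hz1 j
      · rw [Fin.append_right, Units.val_div_eq_div_val, huv, huv,
          ← mul_div_mul_left _ _ (hDne j), map_div₀, hl1 ⟨j, (k j).succ⟩, hl1 ⟨j, 0⟩, div_one]

theorem symb_mem_unramified (hG : A.Graphs) {D : Fin (n + 1) → K} (hS : Scales A D)
    (hSG : ScalesG A D lam) (hT : Tempered.{u, v} P) (hI : Interior P w) (hP0 : P ≠ 0)
    (k : ∀ j, Fin (A.r j)) :
    KQ.map (S + (n + 1)) f (symb (fent A lam P w k)) ∈ Unramified L (S + (n + 1)) := by
  rw [KQ.map_symb]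
  unfold Unramified
  simp only [Submodule.mem_iInf]
  intro v _
  exact symb_mem_unitPart f hG hS hSG hT hI hP0 v k

end Unram

end Pool.Agent.T6.H24.TM
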