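import Pool.Agent.T6.H24.TM.Ev
import Pool.Agent.T6.H24.TM.Unr
import Pool.Agent.T6.H24.TM.Pts
import Pool.Agent.T6.H53.CT.Det
set_option autoImplicit false

/-!
The regulators of the symbols on the fibrations `P(z) = Φ(x) z^w`, for large `λ`.
-/

namespace Pool.Agent.T6.H24.TM

open Pool.Agent.TH826.MK

open Pool.Agent.TH577.UA (mmon mrow yrow det_yrow)

open Pool.Agent.TH826.SX (det_ne_zero_near pairing_close)

open Pool.Agent.Y797.TW (Tower fct IsLow hh mch nex ex exists_chart exists_rapid exists_low eval_mch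
  hh_zero contDiff_hh prod_mch nex_compare wcc wcc_zero contDiff_wcc prod_wcc det_ex)

open Pool.Agent.T6.H53.CT (BM det_BM)

open MvPolynomial (bind₁ map)

section det

variable {n s : ℕ}

/-- the orders of the entries -/
def MX (m : Fin (s + 1) → ℕ) (B : Matrix (Fin (n + 1)) (Fin (n + 1)) ℝ) :
    Matrix (Fin (s + 1 + (n + 1))) (Fin (s + 1 + (n + 1))) ℝ :=
  Matrix.of (Fin.append
    (fun j : Fin (s + 1) => Fin.append (fun l => ((ex m j l : ℕ) : ℝ)) fun _ => 0)
    fun l : Fin (n + 1) => Fin.append (fun _ => 0) (B l))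

variable (m : Fin (s + 1) → ℕ) (B : Matrix (Fin (n + 1)) (Fin (n + 1)) ℝ)

theorem MX_left (j : Fin (s + 1)) : MX m B (Fin.castAdd (n + 1) j) =
    Fin.append (fun l => ((ex m j l : ℕ) : ℝ)) fun _ => 0 := by
  exact Fin.append_left (α := Fin (s + 1 + (n + 1)) → ℝ)
    (fun j : Fin (s + 1) => Fin.append (fun l => ((ex m j l : ℕ) : ℝ)) fun _ => 0)
    (fun l : Fin (n + 1) => Fin.append (fun _ => 0) (B l)) j

theorem MX_right (l : Fin (n + 1)) : MX m B (Fin.natAdd (s + 1) l) =
    Fin.append (fun _ => 0) (B l) := by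
  exact Fin.append_right (α := Fin (s + 1 + (n + 1)) → ℝ)
    (fun j : Fin (s + 1) => Fin.append (fun l => ((ex m j l : ℕ) : ℝ)) fun _ => 0)
    (fun l : Fin (n + 1) => Fin.append (fun _ => 0) (B l)) l

theorem det_MX : (MX m B).det = B.det := by
  rw [← Matrix.det_submatrix_equiv_self (finSumFinEquiv (m := s + 1) (n := n + 1))]
  have h : (MX m B).submatrix (finSumFinEquiv (m := s + 1) (n := n + 1))
      (finSumFinEquiv (m := s + 1) (n := n + 1)) =
      Matrix.fromBlocks (Matrix.of fun j l => ((ex m j l : ℕ) : ℝ)) 0 0 B := by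
    ext i j
    rw [Matrix.submatrix_apply]
    rcases i with i | i <;> rcases j with j | j
    · rw [finSumFinEquiv_apply_left, finSumFinEquiv_apply_left, MX_left,
        Matrix.fromBlocks_apply₁₁, Fin.append_left]
      rfl
    · rw [finSumFinEquiv_apply_left, finSumFinEquiv_apply_right, MX_left,
        Matrix.fromBlocks_apply₁₂, Fin.append_right]
      rfl
    · rw [finSumFinEquiv_apply_right, finSumFinEquiv_apply_left, MX_right,
        Matrix.fromBlocks_apply₂₁, Fin.append_left]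
      rfl
    · rw [finSumFinEquiv_apply_right, finSumFinEquiv_apply_right, MX_right,
        Matrix.fromBlocks_apply₂₂, Fin.append_right]
  rw [h, Matrix.det_fromBlocks_zero₂₁, det_ex, one_mul]

end det

section main

variable {K : Type*} [Field K] {s n : ℕ} {A : Tower K n}

/-- the index set of the factors: the factors of `Φ`, the function `z^w / P(z)` and the `z_j` -/
abbrev Idx (A : Tower K n) (s : ℕ) : Type :=
  Option (Option ((j : Fin (n + 1)) × Fin (A.r j + 1))) ⊕ Fin (s + 1)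

/-- the exponents of the monomials -/
def muI (m : Fin (n + 1) → ℕ) (m' : Fin (s + 1) → ℕ)
    (al : Option ((j : Fin (n + 1)) × Fin (A.r j + 1)) → Fin (n + 1) →₀ ℕ)
    (a w : Fin (s + 1) → ℕ) :
    Idx A s → Fin (s + 1 + (n + 1)) → ℕ
  | Sum.inl (some e) => Fin.append (fun _ : Fin (s + 1) => 0) fun l : Fin (n + 1) =>
      nex m (fun i => al e i) l
  | Sum.inl none => Fin.append (fun l : Fin (s + 1) => nex m' w l - nex m' a l)
      fun _ : Fin (n + 1) => 0
  | Sum.inr j => Fin.append (fun l : Fin (s + 1) => ex m' j l) fun _ : Fin (n + 1) => 0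

/-- the coordinates in the fibres -/
def Wf (u : (Fin (s + 1 + n) → ℂ) × ℂ) : Fin (s + 1) → ℂ := fun l =>
  wcc u (Fin.castAdd (n + 1) l : Fin (s + 1 + (n + 1)))

/-- the coordinates in the base -/
def Vf (u : (Fin (s + 1 + n) → ℂ) × ℂ) : Fin (n + 1) → ℂ := fun l =>
  wcc u (Fin.natAdd (s + 1) l : Fin (s + 1 + (n + 1)))

theorem Wf_zero : Wf (0 : (Fin (s + 1 + n) → ℂ) × ℂ) = 0 := by
  funext l
  unfold Wf
  rw [wcc_zero]
  rfl

theorem Vf_zero : Vf (0 : (Fin (s + 1 + n) → ℂ) × ℂ) = 0 := by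
  funext l
  unfold Vf
  rw [wcc_zero]
  rfl

theorem contDiff_Wf : ContDiff ℂ 2 (Wf (s := s) (n := n)) :=
  contDiff_pi.2 fun _ => contDiff_pi.1 contDiff_wcc _

theorem contDiff_Vf : ContDiff ℂ 2 (Vf (s := s) (n := n)) :=
  contDiff_pi.2 fun _ => contDiff_pi.1 contDiff_wcc _

theorem mmon_append (a : Fin (s + 1) → ℕ) (b : Fin (n + 1) → ℕ)
    (u : (Fin (s + 1 + n) → ℂ) × ℂ) :
    mmon (Fin.append a b : Fin (s + 1 + (n + 1)) → ℕ) u =
      (∏ l, Wf u l ^ a l) * ∏ l, Vf u l ^ b l := by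
  rw [← prod_wcc]
  refine (Fin.prod_univ_add (a := s + 1) (b := n + 1) _).trans ?_
  congr 1
  · refine Finset.prod_congr rfl fun l _ => ?_
    rw [Fin.append_left]
    rfl
  · refine Finset.prod_congr rfl fun l _ => ?_
    rw [Fin.append_right]
    rfl

/-- the other factors -/
noncomputable def hI (σ : K →+* ℂ) (P : MvPolynomial (Fin (s + 1)) K) (m : Fin (n + 1) → ℕ)
    (m' : Fin (s + 1) → ℕ) (x : Fin (n + 1) → MvPolynomial (Fin (n + 1)) ℂ)
    (al : Option ((j : Fin (n + 1)) × Fin (A.r j + 1)) → Fin (n + 1) →₀ ℕ)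
    (a : Fin (s + 1) →₀ ℕ) :
    Idx A s → (Fin (s + 1 + n) → ℂ) × ℂ → ℂ
  | Sum.inl (some e) => fun u => hh m (bind₁ x (map σ (fct A e))) (al e) (Vf u)
  | Sum.inl none => fun u => (hh m' (map σ P) a (Wf u))⁻¹
  | Sum.inr _ => fun _ => 1

/-- the lexicographically smallest exponent of a polynomial with `w` in the interior of the Newton
polytope -/
theorem exists_low_lt (σ : K →+* ℂ) {P : MvPolynomial (Fin (s + 1)) K} {w : Fin (s + 1) → ℕ}
    (hI : Interior P w) : ∃ a : Fin (s + 1) →₀ ℕ, IsLow (map σ P) a ∧ a 0 < w 0 := by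
  classical
  obtain ⟨m, hm, hmw⟩ := hI (Pi.single 0 1) (by
    intro h
    have := congrFun h 0
    rw [Pi.single_eq_same] at this
    exact one_ne_zero this)
  have hm2 : m 0 < w 0 := by
    have e : ∀ v : Fin (s + 1) → ℕ, ∑ j, (Pi.single 0 1 : Fin (s + 1) → ℤ) j * (v j : ℤ) =
        (v 0 : ℤ) := by
      intro v
      rw [Finset.sum_eq_single 0]
      · rw [Pi.single_eq_same, one_mul]
      · intro j _ hj
        rw [Pi.single_eq_of_ne hj, zero_mul]
      · intro h
        exact absurd (Finset.mem_univ _) h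
    rw [e (fun j => m j), e w] at hmw
    exact_mod_cast hmw
  have hm' : m ∈ (map σ P).support := by
    rw [MvPolynomial.support_map_of_injective _ σ.injective]
    exact hm
  have hP : map σ P ≠ 0 := fun h => by
    rw [h, MvPolynomial.support_zero] at hm'
    exact absurd hm' (Finset.notMem_empty m)
  obtain ⟨a, ha⟩ := exists_low hP
  refine ⟨a, ha, lt_of_le_of_lt ?_ hm2⟩
  by_cases h : m = a
  · rw [h]
  · obtain ⟨i, h1, h2⟩ := ha.2 m hm' h
    by_cases hi : i = 0
    · subst hi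
      exact h2.le
    · exact (h1 0 (Fin.pos_iff_ne_zero.2 hi)).le

theorem exists_torus (σ : K →+* ℂ) {P : MvPolynomial (Fin (s + 1)) K} {w : Fin (s + 1) → ℕ}
    (hInt : Interior P w) (hG : A.Graphs) (c : ∀ j, Fin (A.r j)) :
    ∃ D : ℝ, D ≠ 0 ∧ ∀ ε : ℝ, 0 < ε →
    ∃ Λ : ℝ, 1 < Λ ∧ ∀ lam : K, Λ ≤ ‖σ lam‖ → ∃ Γ : Torus (FOpen A lam P w) (s + 1 + n),
      (∀ θ x, Γ.e θ (fcst A lam P w x) = σ x) ∧
      ∀ k, |Γ.reg (symb (fent A lam P w k)) / (-Real.log ‖σ lam‖) -
          (if k = c then 1 else 0) * D| ≤ ε := by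
  classical
  obtain ⟨x, al, hal, hal1, hal2⟩ := exists_chart A σ hG fun j => (c j).succ
  set D0 : ℕ := ∑ e, ∑ j, al e j with hD0
  have hD : ∀ e j, al e j ≤ D0 := fun e j =>
    (Finset.single_le_sum (f := fun j => al e j) (fun _ _ => Nat.zero_le _)
      (Finset.mem_univ j)).trans
    (Finset.single_le_sum (f := fun e => ∑ j, al e j) (fun _ _ => Nat.zero_le _)
      (Finset.mem_univ e))
  obtain ⟨m, hm⟩ := exists_rapid D0 (n + 1)
  obtain ⟨a, ha, ha0⟩ := exists_low_lt σ hInt
  set D1 : ℕ := ∑ j, a j with hD1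
  have hDa : ∀ j, a j ≤ D1 := fun j =>
    Finset.single_le_sum (f := fun j => a j) (fun _ _ => Nat.zero_le _) (Finset.mem_univ j)
  obtain ⟨m', hm'⟩ := exists_rapid D1 (s + 1)
  obtain ⟨hnle, hnlt⟩ := nex_compare hm' (α := fun j => a j) (β := w) hDa (i := 0)
    (fun j hj => absurd hj (Fin.not_lt_zero j)) ha0
  set μ : Idx A s → Fin (s + 1 + (n + 1)) → ℕ := muI m m' al (fun j => a j) w with hμdef
  set E : Finset (Idx A s) := Finset.univ.disjSum ∅ with hE
  have hEsum : ∀ f : Idx A s → ℕ, ∑ e ∈ E, f e = ∑ e, f (Sum.inl e) := by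
    intro f
    rw [hE, Finset.sum_disjSum, Finset.sum_empty, add_zero]
  have hEprod : ∀ f : Idx A s → ℂ, ∏ e ∈ E, f e = ∏ e, f (Sum.inl e) := by
    intro f
    rw [hE, Finset.prod_disjSum, Finset.prod_empty, mul_one]
  set q : ℕ := ∑ e ∈ E, μ e 0 with hq
  set N : Fin (s + 1 + n) → ℕ := fun k => ∑ e ∈ E, μ e k.succ with hN
  have hμ0 : μ (Sum.inl none) 0 = nex m' w 0 - nex m' (fun j => a j) 0 := by
    have h : (0 : Fin (s + 1 + (n + 1))) = Fin.castAdd (n + 1) (0 : Fin (s + 1)) := rfl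
    rw [h]
    exact Fin.append_left _ _ _
  have hq0 : 0 < q := by
    rw [hq, hEsum]
    refine lt_of_lt_of_le ?_ (Finset.single_le_sum (f := fun e => μ (Sum.inl e) 0)
      (fun _ _ => Nat.zero_le _) (Finset.mem_univ none))
    show 0 < μ (Sum.inl none) 0
    rw [hμ0]
    omega
  refine ⟨(2 * Real.pi) ^ (s + 1 + n) * (Matrix.of (yrow q N)).det, mul_ne_zero
    (pow_ne_zero _ (by have := Real.pi_pos; positivity)) (det_yrow hq0 N), fun ε hε => ?_⟩
  set R : (∀ j, Fin (A.r j)) → Matrix (Fin (s + 1 + n + 1)) (Fin (s + 1 + n + 1)) ℝ :=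
    fun k => MX m' (BM m al k) * Matrix.of (yrow q N) with hR
  choose δ hδ hclose using fun k : ∀ j, Fin (A.r j) => pairing_close (R k) hε
  obtain ⟨k0, -, hk0⟩ := Finset.exists_min_image Finset.univ δ ⟨c, Finset.mem_univ _⟩
  set δ0 : ℝ := δ k0 / 3 with hδ0
  have hδ0pos : 0 < δ0 := by
    have := hδ k0
    rw [hδ0]
    linarith
  have hδle : ∀ k, 2 * δ0 < δ k := by
    intro k
    have h1 := hk0 k (Finset.mem_univ k)
    have h2 := hδ k0
    rw [hδ0]
    linarith
  set H : Idx A s → (Fin (s + 1 + n) → ℂ) × ℂ → ℂ := fun e u =>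
    mmon (μ e) u * hI σ P m m' x al a e u with hH
  have hhP : hh m' (map σ P) a 0 ≠ 0 := hh_zero hm' ha hDa
  obtain ⟨η0, hη0, hX⟩ := exists_points' (q := q) (N := N) E (H := H)
    (h := hI σ P m m' x al a)
    (μ := μ)
    (fun e u => rfl)
    (fun e => by
      rcases e with (_ | e) | j
      · refine ContDiffAt.inv ?_ ?_
        · exact ((contDiff_hh m' _ _).comp contDiff_Wf).contDiffAt
        · show hh m' (map σ P) a (Wf 0) ≠ 0
          rw [Wf_zero]
          exact hhP
      · exact ((contDiff_hh m _ _).comp contDiff_Vf).contDiffAt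
      · exact contDiffAt_const)
    (fun e => by
      rcases e with (_ | e) | j
      · show (hh m' (map σ P) a (Wf 0))⁻¹ ≠ 0
        rw [Wf_zero]
        exact inv_ne_zero hhP
      · show hh m (bind₁ x (map σ (fct A e))) (al e) (Vf 0) ≠ 0
        rw [Vf_zero]
        exact hh_zero hm (hal e) (hD e)
      · exact one_ne_zero)
    rfl hq0 (fun k => rfl) hδ0pos
  -- the values of the functions
  have hHe : ∀ e u, H (Sum.inl (some e)) u =
      MvPolynomial.eval (mch m (Vf u)) (bind₁ x (map σ (fct A e))) := by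
    intro e u
    rw [eval_mch hm (hal e) (hD e)]
    have h1 : μ (Sum.inl (some e)) = Fin.append (fun _ : Fin (s + 1) => 0)
        fun l : Fin (n + 1) => nex m (fun i => al e i) l := rfl
    show mmon (μ (Sum.inl (some e))) u * hh m (bind₁ x (map σ (fct A e))) (al e) (Vf u) = _
    rw [h1]
    have h2 := mmon_append (fun _ : Fin (s + 1) => 0)
      (fun l : Fin (n + 1) => nex m (fun i => al e i) l) u
    rw [h2]
    simp only [pow_zero, Finset.prod_const_one, one_mul]
  have hHz : ∀ j u, H (Sum.inr j) u = mch m' (Wf u) j := by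
    intro j u
    have h1 : μ (Sum.inr j) = Fin.append (fun l : Fin (s + 1) => ex m' j l)
        fun _ : Fin (n + 1) => 0 := rfl
    show mmon (μ (Sum.inr j)) u * 1 = _
    rw [mul_one, h1]
    have h2 := mmon_append (fun l : Fin (s + 1) => ex m' j l) (fun _ : Fin (n + 1) => 0) u
    rw [h2]
    simp only [pow_zero, Finset.prod_const_one, mul_one]
    rfl
  have hHR : ∀ u, H (Sum.inl none) u ≠ 0 → H (Sum.inl none) u *
      MvPolynomial.eval (mch m' (Wf u)) (map σ P) = ∏ j, mch m' (Wf u) j ^ w j := by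
    intro u hu
    have h1 : μ (Sum.inl none) = Fin.append
        (fun l : Fin (s + 1) => nex m' w l - nex m' (fun j => a j) l)
        fun _ : Fin (n + 1) => 0 := rfl
    have h2 := mmon_append (fun l : Fin (s + 1) => nex m' w l - nex m' (fun j => a j) l)
      (fun _ : Fin (n + 1) => 0) u
    simp only [pow_zero, Finset.prod_const_one, mul_one] at h2
    have h3 : H (Sum.inl none) u = mmon (μ (Sum.inl none)) u * (hh m' (map σ P) a (Wf u))⁻¹ := rfl
    rw [h3] at hu ⊢
    have h4 : hh m' (map σ P) a (Wf u) ≠ 0 := fun h => by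
      rw [h, inv_zero, mul_zero] at hu
      exact hu rfl
    rw [eval_mch hm' ha hDa, h1, h2, prod_mch]
    have h5 : ∏ l, Wf u l ^ nex m' w l = (∏ l, Wf u l ^ (nex m' w l - nex m' (fun j => a j) l)) *
        ∏ l, Wf u l ^ nex m' (fun j => a j) l := by
      rw [← Finset.prod_mul_distrib]
      refine Finset.prod_congr rfl fun l _ => ?_
      rw [← pow_add, Nat.sub_add_cancel (hnle l)]
    rw [h5]
    field_simp
  have hinvpos : 0 < 1 / η0 := by positivity
  refine ⟨1 / η0 + 2, by linarith, fun lam hlam => ?_⟩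
  have hln : 0 < ‖σ lam‖ := by linarith
  have hl0 : σ lam ≠ 0 := norm_pos_iff.1 hln
  have hη : ‖(σ lam)⁻¹‖ < η0 := by
    rw [norm_inv, inv_lt_comm₀ hln hη0, ← one_div]
    linarith
  obtain ⟨hlog, U, hUc, hUp, hUe, hUg, hUest⟩ := hX _ (inv_ne_zero hl0) hη
  have hlogeq : Real.log ‖(σ lam)⁻¹‖ = -Real.log ‖σ lam‖ := by rw [norm_inv, Real.log_inv]
  rw [hlogeq] at hlog hUest
  set s0 : ℝ := -Real.log ‖σ lam‖ with hs
  have hs0 : s0 ≠ 0 := hlog.ne
  set X : (Fin (s + 1 + n) → ℝ) → (Fin (n + 1) → ℂ) := fun θ j =>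
    MvPolynomial.eval (mch m (Vf (U θ))) (x j) with hXdef
  set Z : (Fin (s + 1 + n) → ℝ) → (Fin (s + 1) → ℂ) := fun θ => mch m' (Wf (U θ)) with hZdef
  have hval : ∀ (p : MvPolynomial (Fin (n + 1)) K) θ, MvPolynomial.eval₂ σ (X θ) p =
      MvPolynomial.eval (mch m (Vf (U θ))) (bind₁ x (map σ p)) := by
    intro p θ
    unfold MvPolynomial.eval
    rw [MvPolynomial.eval₂Hom_bind₁]
    show _ = MvPolynomial.eval₂ (RingHom.id ℂ) _ (map σ p)
    rw [MvPolynomial.eval₂_map, RingHom.id_comp]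
    rfl
  have hvalP : ∀ θ, MvPolynomial.eval₂ σ (Z θ) P =
      MvPolynomial.eval (mch m' (Wf (U θ))) (map σ P) := by
    intro θ
    rw [MvPolynomial.eval_map]
  set p : (Fin (s + 1 + n) → ℝ) → (Fin (n + 1) ⊕ Fin (s + 1) → ℂ) := fun θ =>
    Sum.elim (X θ) (Z θ) with hpdef
  have hVc : ContDiff ℝ 2 fun θ => Vf (U θ) := (contDiff_Vf.restrict_scalars ℝ).comp hUc
  have hWc : ContDiff ℝ 2 fun θ => Wf (U θ) := (contDiff_Wf.restrict_scalars ℝ).comp hUc
  have hmch : ContDiff ℝ 2 fun θ => mch m (Vf (U θ)) := by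
    refine contDiff_pi.2 fun j => ?_
    unfold mch
    exact contDiff_prod fun l _ => (contDiff_pi.1 hVc l).pow _
  have hZc : ContDiff ℝ 2 Z := by
    refine contDiff_pi.2 fun j => ?_
    show ContDiff ℝ 2 fun θ => ∏ l, Wf (U θ) l ^ ex m' j l
    exact contDiff_prod fun l _ => (contDiff_pi.1 hWc l).pow _
  have hXc : ContDiff ℝ 2 X := by
    refine contDiff_pi.2 fun j => ?_
    have h1 : ∀ p : MvPolynomial (Fin (n + 1)) ℂ, ContDiff ℝ 2
        fun θ => MvPolynomial.eval (mch m (Vf (U θ))) p := by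
      intro p
      induction p using MvPolynomial.induction_on with
      | C c => simpa using contDiff_const
      | add p q hp hq => simpa using hp.add hq
      | mul_X p k hp => simpa using hp.mul (contDiff_pi.1 hmch k)
    exact h1 (x j)
  have hpc : ContDiff ℝ 2 p := by
    refine contDiff_pi.2 fun k => ?_
    rcases k with k | j
    · exact contDiff_pi.1 hXc k
    · exact contDiff_pi.1 hZc j
  have hpp : ∀ θ i, p (θ + Pi.single i 1) = p θ := by
    intro θ i
    simp only [hpdef, hXdef, hZdef, hUp]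
  -- the factors
  have hL : ∀ e, (fun θ => H (Sum.inl (some e)) (U θ)) =
      fun θ => MvPolynomial.eval₂ σ (X θ) (fct A e) := by
    intro e
    funext θ
    rw [hHe, hval]
  have hgoodL : ∀ e, Good fun θ => MvPolynomial.eval₂ σ (X θ) (fct A e) := fun e => by
    rw [← hL]
    exact hUg _
  have hgoodZ : ∀ j, Good fun θ => Z θ j := fun j => by
    have h1 := hUg (Sum.inr j)
    simp only [hHz] at h1
    exact h1
  have hprod : ∀ θ, MvPolynomial.eval₂ σ (X θ) A.prod =
      ∏ e, MvPolynomial.eval₂ σ (X θ) (fct A e) := by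
    intro θ
    rw [Fintype.prod_option, Fintype.prod_sigma]
    unfold Tower.prod
    rw [MvPolynomial.eval₂_mul, MvPolynomial.eval₂_prod]
    simp only [MvPolynomial.eval₂_prod]
    rfl
  have hPt : ∀ θ, FPt σ A lam P w (p θ) := by
    intro θ
    have hinl : (fun j => p θ (Sum.inl j)) = X θ := rfl
    have hinr : (fun j => p θ (Sum.inr j)) = Z θ := rfl
    have hR0 : H (Sum.inl none) (U θ) ≠ 0 := (hUg (Sum.inl none)).ne_zero θ
    constructor
    · rw [eval_feqn, hinl, hinr, hvalP, sub_eq_zero]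
      have h1 := hUe θ
      rw [hEprod, Fintype.prod_option] at h1
      have h2 : ∏ e, H (Sum.inl (some e)) (U θ) = MvPolynomial.eval₂ σ (X θ) A.prod := by
        rw [hprod]
        exact Finset.prod_congr rfl fun e _ => congrFun (hL e) θ
      rw [h2] at h1
      have h3 := hHR (U θ) hR0
      have h4 : ∏ j, p θ (Sum.inr j) ^ w j = ∏ j, mch m' (Wf (U θ)) j ^ w j := rfl
      rw [h4, ← h3]
      have h5 : σ lam * (H (Sum.inl none) (U θ) * MvPolynomial.eval₂ σ (X θ) A.prod) = 1 := by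
        rw [h1]
        exact mul_inv_cancel₀ hl0
      linear_combination (-MvPolynomial.eval (mch m' (Wf (U θ))) (map σ P)) * h5
    · rw [MvPolynomial.eval₂_mul, eval_fPhi, eval_zall, hinl, hprod]
      refine mul_ne_zero (mul_ne_zero hl0 (Finset.prod_ne_zero_iff.2 fun e _ => ?_))
        (Finset.prod_ne_zero_iff.2 fun j _ => ?_)
      · exact (hgoodL e).ne_zero θ
      · exact (hgoodZ j).ne_zero θ
  refine ⟨mkF p hpc hpp hPt, fun θ y => (hPt θ).evA_fcst y, fun k => ?_⟩
  have hfin : (if k = c then 1 else 0) * ((2 * Real.pi) ^ (s + 1 + n) *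
      (Matrix.of (yrow q N)).det) = (2 * Real.pi) ^ (s + 1 + n) * (R k).det := by
    have h1 : (R k).det = (if k = c then 1 else 0) * (Matrix.of (yrow q N)).det := by
      rw [hR]
      show (MX m' (BM m al k) * Matrix.of (yrow q N)).det = _
      rw [Matrix.det_mul]
      congr 1
      rw [← det_BM m al c hal1 hal2 k]
      exact det_MX m' (BM m al k)
    rw [h1]
    ring
  have hμz : ∀ (j : Fin (s + 1)) (i : Fin (s + 1 + (n + 1))),
      MX m' (BM m al k) (Fin.castAdd (n + 1) j) i = ((μ (Sum.inr j) i : ℕ) : ℝ) := by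
    intro j i
    rw [MX_left]
    have h1 : μ (Sum.inr j) = Fin.append (fun l : Fin (s + 1) => ex m' j l)
        fun _ : Fin (n + 1) => 0 := rfl
    rw [h1]
    refine Fin.addCases (fun i => ?_) (fun i => ?_) i
    · rw [Fin.append_left, Fin.append_left]
    · rw [Fin.append_right, Fin.append_right, Nat.cast_zero]
  have hμu : ∀ (l : Fin (n + 1)) (i : Fin (s + 1 + (n + 1))),
      MX m' (BM m al k) (Fin.natAdd (s + 1) l) i =
        ((μ (Sum.inl (some (some ⟨l, (k l).succ⟩))) i : ℕ) : ℝ) -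
        ((μ (Sum.inl (some (some ⟨l, 0⟩))) i : ℕ) : ℝ) := by
    intro l i
    rw [MX_right]
    have h1 : ∀ e, μ (Sum.inl (some e)) = Fin.append (fun _ : Fin (s + 1) => 0)
        fun l : Fin (n + 1) => nex m (fun i => al e i) l := fun e => rfl
    rw [h1, h1]
    refine Fin.addCases (fun i => ?_) (fun i => ?_) i
    · rw [Fin.append_left, Fin.append_left, Fin.append_left, Nat.cast_zero, sub_self]
    · rw [Fin.append_right, Fin.append_right, Fin.append_right]
      rfl
  have hRz : ∀ (j : Fin (s + 1)) (i : Fin (s + 1 + n + 1)),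
      R k (Fin.castAdd (n + 1) j : Fin (s + 1 + (n + 1))) i = mrow q N (μ (Sum.inr j)) i := by
    intro j i
    show (MX m' (BM m al k) * Matrix.of (yrow q N)) (Fin.castAdd (n + 1) j) i = _
    rw [Matrix.mul_apply]
    unfold mrow
    refine Finset.sum_congr rfl fun p _ => ?_
    rw [hμz]
    rfl
  have hRu : ∀ (l : Fin (n + 1)) (i : Fin (s + 1 + n + 1)),
      R k (Fin.natAdd (s + 1) l : Fin (s + 1 + (n + 1))) i =
        mrow q N (μ (Sum.inl (some (some ⟨l, (k l).succ⟩)))) i -
        mrow q N (μ (Sum.inl (some (some ⟨l, 0⟩)))) i := by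
    intro l i
    show (MX m' (BM m al k) * Matrix.of (yrow q N)) (Fin.natAdd (s + 1) l) i = _
    rw [Matrix.mul_apply]
    unfold mrow
    rw [← Finset.sum_sub_distrib]
    refine Finset.sum_congr rfl fun p _ => ?_
    rw [hμu, ← sub_mul]
    rfl
  rw [Torus.reg_symb, hfin]
  set Γ := mkF p hpc hpp hPt with hΓ
  have hau : ∀ j i, Γ.fn (fu A lam P w j i : FOpen A lam P w) =
      fun θ => H (Sum.inl (some (some ⟨j, i⟩))) (U θ) := fun j i => by
    rw [hL]
    exact mkF_fu p hpc hpp hPt j i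
  have hazf : ∀ j, Γ.fn (fz A lam P w j : FOpen A lam P w) = fun θ => H (Sum.inr j) (U θ) :=
      fun j => by
    have h1 : (fun θ => H (Sum.inr j) (U θ)) = fun θ => p θ (Sum.inr j) := by
      funext θ
      rw [hHz]
      rfl
    rw [h1]
    exact mkF_fz p hpc hpp hPt j
  have hgoodE : ∀ l, Good (Γ.fn (fent A lam P w k l : FOpen A lam P w)) := fun l => Γ.good _
  have hgoodU : ∀ j i, Good (Γ.fn (fu A lam P w j i : FOpen A lam P w)) := fun j i => Γ.good _
  have hentz : ∀ j : Fin (s + 1), fent A lam P w k (Fin.castAdd (n + 1) j) = fz A lam P w j := by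
    intro j
    unfold fent
    rw [Fin.append_left]
  have hentu : ∀ l : Fin (n + 1), fent A lam P w k (Fin.natAdd (s + 1) l) =
      fu A lam P w l (k l).succ / fu A lam P w l 0 := by
    intro l
    unfold fent
    rw [Fin.append_right]
  have hmul : ∀ l : Fin (n + 1), (fun θ => Γ.fn (fent A lam P w k (Fin.natAdd (s + 1) l) :
      FOpen A lam P w) θ * Γ.fn (fu A lam P w l 0 : FOpen A lam P w) θ) =
      Γ.fn (fu A lam P w l (k l).succ : FOpen A lam P w) := by
    intro l
    funext θ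
    unfold Torus.fn
    rw [← map_mul, ← Units.val_mul, hentu, div_mul_cancel]
  have key1 : ∀ (l : Fin (s + 1 + (n + 1))) (θ : Fin (s + 1 + n) → ℝ),
      |Real.log ‖Γ.fn (fent A lam P w k l : FOpen A lam P w) θ‖ / s0 - R k l 0| < δ k := by
    intro l θ
    revert l
    refine Fin.addCases (fun j => ?_) (fun l => ?_)
    · rw [hRz, hentz, hazf]
      exact ((hUest (Sum.inr j) θ).1).trans_lt (by linarith [hδle k])
    · rw [hRu]
      have h1 := (hUest (Sum.inl (some (some ⟨l, (k l).succ⟩))) θ).1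
      have h2 := (hUest (Sum.inl (some (some ⟨l, 0⟩))) θ).1
      have e1 := congrFun (hau l (k l).succ) θ
      have e2 := congrFun (hau l 0) θ
      rw [← e1] at h1
      rw [← e2] at h2
      have h3 : Real.log ‖Γ.fn (fent A lam P w k (Fin.natAdd (s + 1) l) : FOpen A lam P w) θ *
          Γ.fn (fu A lam P w l 0 : FOpen A lam P w) θ‖ =
          Real.log ‖Γ.fn (fu A lam P w l (k l).succ : FOpen A lam P w) θ‖ :=
        congrArg (fun z : ℂ => Real.log ‖z‖) (congrFun (hmul l) θ)
      rw [norm_mul, Real.log_mul (norm_ne_zero_iff.2 ((hgoodE _).ne_zero θ))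
        (norm_ne_zero_iff.2 ((hgoodU l 0).ne_zero θ))] at h3
      have h4 : Real.log ‖Γ.fn (fent A lam P w k (Fin.natAdd (s + 1) l) : FOpen A lam P w) θ‖ =
          Real.log ‖Γ.fn (fu A lam P w l (k l).succ : FOpen A lam P w) θ‖ -
          Real.log ‖Γ.fn (fu A lam P w l 0 : FOpen A lam P w) θ‖ := by
        linarith
      rw [h4, sub_div]
      refine lt_of_le_of_lt ?_ (hδle k)
      have h5 := abs_le.1 h1
      have h6 := abs_le.1 h2
      rw [abs_le]
      constructor <;> linarith [h5.1, h5.2, h6.1, h6.2]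
  have key2 : ∀ (l : Fin (s + 1 + (n + 1))) (j : Fin (s + 1 + n)) (θ : Fin (s + 1 + n) → ℝ),
      ‖lw (Γ.fn (fent A lam P w k l : FOpen A lam P w)) j θ -
        2 * Real.pi * Complex.I * (R k l j.succ : ℝ)‖ < δ k := by
    intro l j θ
    revert l
    refine Fin.addCases (fun i => ?_) (fun l => ?_)
    · rw [hRz, hentz, hazf]
      exact ((hUest (Sum.inr i) θ).2 j).trans_lt (by linarith [hδle k])
    · rw [hRu]
      have h1 := (hUest (Sum.inl (some (some ⟨l, (k l).succ⟩))) θ).2 j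
      have h2 := (hUest (Sum.inl (some (some ⟨l, 0⟩))) θ).2 j
      rw [← hau l (k l).succ] at h1
      rw [← hau l 0] at h2
      have h3 := lw_mul (hgoodE (Fin.natAdd (s + 1) l)) (hgoodU l 0) j θ
      rw [hmul l] at h3
      have h4 : lw (Γ.fn (fent A lam P w k (Fin.natAdd (s + 1) l) : FOpen A lam P w)) j θ =
          lw (Γ.fn (fu A lam P w l (k l).succ : FOpen A lam P w)) j θ -
          lw (Γ.fn (fu A lam P w l 0 : FOpen A lam P w)) j θ := by
        rw [h3]
        ring
      refine lt_of_le_of_lt ?_ (hδle k)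
      rw [h4]
      have h5 : lw (Γ.fn (fu A lam P w l (k l).succ : FOpen A lam P w)) j θ -
          lw (Γ.fn (fu A lam P w l 0 : FOpen A lam P w)) j θ - 2 * Real.pi * Complex.I *
          ((mrow q N (μ (Sum.inl (some (some ⟨l, (k l).succ⟩)))) j.succ -
            mrow q N (μ (Sum.inl (some (some ⟨l, 0⟩)))) j.succ : ℝ) : ℂ) =
          (lw (Γ.fn (fu A lam P w l (k l).succ : FOpen A lam P w)) j θ -
            2 * Real.pi * Complex.I *
              mrow q N (μ (Sum.inl (some (some ⟨l, (k l).succ⟩)))) j.succ) -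
          (lw (Γ.fn (fu A lam P w l 0 : FOpen A lam P w)) j θ - 2 * Real.pi * Complex.I *
              mrow q N (μ (Sum.inl (some (some ⟨l, 0⟩)))) j.succ) := by
        push_cast
        ring
      rw [h5]
      refine (norm_sub_le _ _).trans ?_
      linarith
  exact hclose k _ _ hs0 hgoodE key1 key2

theorem exists_tori (σ : K →+* ℂ) {P : MvPolynomial (Fin (s + 1)) K} {w : Fin (s + 1) → ℕ}
    (hInt : Interior P w) (hG : A.Graphs) :
    ∃ C : ℝ, 1 ≤ C ∧ ∀ lam : K, C ≤ ‖σ lam‖ →
      ∃ Γ : (∀ j, Fin (A.r j)) → Torus (FOpen A lam P w) (s + 1 + n),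
        (∀ t θ x, (Γ t).e θ (fcst A lam P w x) = σ x) ∧
        (Matrix.of fun t k : (∀ j, Fin (A.r j)) =>
          (Γ t).reg (symb (fent A lam P w k))).det ≠ 0 := by
  classical
  choose D hD0 hD using fun t : (∀ j, Fin (A.r j)) => exists_torus (A := A) σ hInt hG t
  have hlead : (Matrix.diagonal D).det ≠ 0 := by
    rw [Matrix.det_diagonal]
    exact Finset.prod_ne_zero_iff.2 fun t _ => hD0 t
  obtain ⟨δ, hδ, hdet'⟩ := det_ne_zero_near _ hlead
  choose Λ hΛ1 hΛ using fun t => hD t (δ / 2) (by linarith)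
  set C : ℝ := ∑ t, |Λ t| + 2 with hC
  have hsum : 0 ≤ ∑ t, |Λ t| := Finset.sum_nonneg fun J _ => abs_nonneg _
  have hΛC : ∀ t, Λ t ≤ C := by
    intro t
    have h1 := Finset.single_le_sum (f := fun t => |Λ t|) (fun t _ => abs_nonneg _)
      (Finset.mem_univ t)
    have h2 := le_abs_self (Λ t)
    have h3 : |Λ t| ≤ ∑ t, |Λ t| := h1
    linarith
  refine ⟨C, by linarith, fun lam hlam => ?_⟩
  choose Γ hΓ1 hΓ2 using fun t => hΛ t lam ((hΛC t).trans hlam)
  refine ⟨Γ, hΓ1, ?_⟩
  have hs : -Real.log ‖σ lam‖ ≠ 0 := by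
    have : 0 < Real.log ‖σ lam‖ := Real.log_pos (by linarith)
    linarith
  set q : ℝ := -Real.log ‖σ lam‖ with hqdef
  have h1 : (Matrix.of fun t k : (∀ j, Fin (A.r j)) =>
      (Γ t).reg (symb (fent A lam P w k)) / q).det ≠ 0 := by
    refine hdet' _ fun t k => ?_
    rw [Matrix.of_apply, Matrix.diagonal_apply]
    refine lt_of_le_of_lt ?_ (show δ / 2 < δ by linarith)
    have h2 := hΓ2 t k
    have h3 : (if t = k then D t else 0) = (if k = t then 1 else 0) * D t := by
      by_cases h : t = k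
      · rw [if_pos h, if_pos h.symm, one_mul]
      · rw [if_neg h, if_neg (Ne.symm h), zero_mul]
    rw [h3]
    exact h2
  have h2 : (Matrix.of fun t k : (∀ j, Fin (A.r j)) =>
      (Γ t).reg (symb (fent A lam P w k))) =
      q • (Matrix.of fun t k : (∀ j, Fin (A.r j)) =>
        (Γ t).reg (symb (fent A lam P w k)) / q) := by
    ext t k
    rw [Matrix.smul_apply, Matrix.of_apply, Matrix.of_apply, smul_eq_mul]
    field_simp
  rw [h2, Matrix.det_smul]
  exact mul_ne_zero (pow_ne_zero _ hs) h1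

end main

end Pool.Agent.T6.H24.TM
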