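import Pool.Agent.TH826.SX.Milnor
set_option autoImplicit false

/-!
Symbols of monomials: the determinant of the exponents; symbols with entries whose sum is a
one-unit.
-/

namespace Pool.Agent.T6.H24.TM

open scoped WithZero

open Pool.Agent.TH826.MK

open Pool.Agent.TH826.SX

section alt

variable {L : Type*} [Field L] {N : ℕ}

/-- the symbol of the monomials with the exponents `B` -/
noncomputable def mfun (b : Fin N → Lˣ) (B : Fin N → Fin N → ℤ) : KQ L N :=
  symb fun j => ∏ l, b l ^ B j l

theorem mfun_update (b : Fin N → Lˣ) (B : Fin N → Fin N → ℤ) (i : Fin N) (x : Fin N → ℤ) :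
    mfun b (Function.update B i x) =
      symb (Function.update (fun j => ∏ l, b l ^ B j l) i (∏ l, b l ^ x l)) := by
  unfold mfun
  congr 1
  funext j
  by_cases h : j = i
  · subst h
    rw [Function.update_self, Function.update_self]
  · rw [Function.update_of_ne h, Function.update_of_ne h]

/-- the symbols of monomials as an alternating map of the exponents -/
noncomputable def malt (b : Fin N → Lˣ) : (Fin N → ℤ) [⋀^Fin N]→ₗ[ℤ] KQ L N where
  toFun B := mfun b B
  map_update_add' {inst} B i x y := by
    have : inst = instDecidableEqFin N := Subsingleton.elim _ _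
    subst this
    rw [mfun_update, mfun_update, mfun_update, ← symb_update_mul]
    congr 1
    congr 1
    rw [← Finset.prod_mul_distrib]
    exact Finset.prod_congr rfl fun l _ => zpow_add _ _ _
  map_update_smul' {inst} B i c x := by
    have : inst = instDecidableEqFin N := Subsingleton.elim _ _
    subst this
    rw [mfun_update, mfun_update]
    have h : (∏ l, b l ^ (c • x) l) = (∏ l, b l ^ x l) ^ c := by
      rw [← Finset.prod_zpow]
      refine Finset.prod_congr rfl fun l _ => ?_
      rw [← zpow_mul]
      congr 1
      rw [Pi.smul_apply, smul_eq_mul, mul_comm]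
    rw [h, symb_update_zpow, Int.cast_smul_eq_zsmul]
  map_eq_zero_of_eq' B i j h hij := by
    refine symb_self _ hij ?_
    show ∏ l, b l ^ B j l = ∏ l, b l ^ B i l
    rw [h]

/-- The symbols of monomials are multiples of the symbol of the variables. -/
theorem symb_monomials (b : Fin N → Lˣ) (B : Matrix (Fin N) (Fin N) ℤ) :
    symb (fun j => ∏ l, b l ^ B j l) = ((B.det : ℤ) : ℚ) • symb b := by
  have key : malt b = (LinearMap.toSpanSingleton ℤ (KQ L N) (symb b)).compAlternatingMap
      (Matrix.detRowAlternating (n := Fin N) (R := ℤ)) := by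
    refine Module.Basis.ext_alternating (Pi.basisFun ℤ (Fin N)) fun v hv => ?_
    let σ : Equiv.Perm (Fin N) := Equiv.ofBijective v (Finite.injective_iff_bijective.1 hv)
    have hσ : (fun i => (Pi.basisFun ℤ (Fin N)) (v i)) = (fun i => (Pi.basisFun ℤ (Fin N)) i) ∘ σ :=
      rfl
    rw [hσ, AlternatingMap.map_perm, AlternatingMap.map_perm]
    congr 1
    rw [LinearMap.compAlternatingMap_apply]
    have h1 : Matrix.detRowAlternating (fun i => (Pi.basisFun ℤ (Fin N)) i) = 1 := by
      have : (fun i => (Pi.basisFun ℤ (Fin N)) i) = (1 : Matrix (Fin N) (Fin N) ℤ) := by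
        ext i j
        simp [Matrix.one_apply, Pi.single_apply, eq_comm]
      rw [this]
      exact Matrix.det_one
    rw [h1, LinearMap.toSpanSingleton_apply, one_smul]
    show symb (fun j => ∏ l, b l ^ ((Pi.basisFun ℤ (Fin N)) j) l) = symb b
    congr 1
    funext j
    rw [Finset.prod_eq_single j]
    · simp
    · intro l _ hl
      simp [Pi.basisFun_apply, hl]
    · intro h
      exact absurd (Finset.mem_univ j) h
  have h := congrArg (fun f => f B) key
  have h2 : malt b B = symb (fun j => ∏ l, b l ^ B j l) := rfl
  rw [← h2]
  refine h.trans ?_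
  show (LinearMap.toSpanSingleton ℤ (KQ L N) (symb b)) (Matrix.det B) = _
  rw [LinearMap.toSpanSingleton_apply, Int.cast_smul_eq_zsmul]

theorem symb_pow_all (b : Fin N → Lˣ) (e : Fin N → ℤ) :
    symb (fun j => b j ^ e j) = ((∏ j, e j : ℤ) : ℚ) • symb b := by
  have h := symb_monomials b (Matrix.diagonal e)
  rw [Matrix.det_diagonal] at h
  rw [← h]
  congr 1
  funext j
  rw [Finset.prod_eq_single j]
  · rw [Matrix.diagonal_apply_eq]
  · intro l _ hl
    rw [Matrix.diagonal_apply_ne' _ hl, zpow_zero]
  · intro h
    exact absurd (Finset.mem_univ j) h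

end alt

section sum

variable {L : Type*} [Field L] {N : ℕ}

/-- Symbols with entries (on a subset) whose sum is a one-unit lie in the unit part. -/
theorem mem_unitPart_of_sum_one (v : Valuation L ℤᵐ⁰) (T : Finset (Fin N)) (a : Fin N → Lˣ)
    (h : v (∑ k ∈ T, (a k : L) - 1) < 1) : symb a ∈ unitPart v N := by
  classical
  set u : L := ∑ k ∈ T, (a k : L) with hu
  have hv : v u = 1 := val_one_of_sub_one h
  have hu0 : u ≠ 0 := by
    intro h0
    rw [h0, map_zero] at hv
    exact zero_ne_one hv
  set u' : Lˣ := Units.mk0 u hu0 with hu'
  have hu1 : ((u' : Lˣ) : L) = u := rfl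
  have key : ∀ T' : Finset (Fin N),
      symb a - symb (fun k => if k ∈ T' then a k * u'⁻¹ else a k) ∈ unitPart v N := by
    intro T'
    induction T' using Finset.induction_on with
    | empty =>
      simp only [Finset.notMem_empty, if_false]
      rw [sub_self]
      exact Submodule.zero_mem _
    | insert j T' hj ih =>
      set b : Fin N → Lˣ := fun k => if k ∈ T' then a k * u'⁻¹ else a k with hb
      have hbj : b j = a j := by
        simp only [hb]
        rw [if_neg hj]
      have e : (fun k => if k ∈ insert j T' then a k * u'⁻¹ else a k) =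
          Function.update b j (a j * u'⁻¹) := by
        funext k
        by_cases hk : k = j
        · subst hk
          rw [Function.update_self, if_pos (Finset.mem_insert_self _ _)]
        · rw [Function.update_of_ne hk]
          simp only [hb, Finset.mem_insert, hk, false_or]
      have e2 : symb (Function.update b j (a j * u'⁻¹)) =
          symb b - symb (Function.update b j u') := by
        rw [symb_update_mul, symb_upd_inv, ← hbj, Function.update_eq_self, ← sub_eq_add_neg]
      have e3 : symb (Function.update b j u') ∈ unitPart v N := by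
        refine mem_unitPart_of_oneUnit' v j _ ?_
        rw [Function.update_self, hu1]
        exact h
      rw [e, e2, ← sub_add]
      exact Submodule.add_mem _ ih e3
  have h1 := key T
  have h2 : symb (fun k => if k ∈ T then a k * u'⁻¹ else a k) = 0 := by
    refine symb_eq_zero_of_sum T.card T _ rfl ?_
    rw [Finset.sum_congr rfl fun k hk => by rw [if_pos hk, Units.val_mul,
      Units.val_inv_eq_inv_val, hu1], ← Finset.sum_mul]
    exact mul_inv_cancel₀ hu0
  rwa [h2, sub_zero] at h1

end sum

end Pool.Agent.T6.H24.TM
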