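import Pool.Agent.T6.H24.TM.Mon
set_option autoImplicit false

/-!
Tempered polynomials.
-/

namespace Pool.Agent.T6.H24.TM

open scoped WithZero

open Pool.Agent.TH826.MK

open Pool.Agent.TH826.SX

universe u v

/-- A polynomial `P` over `K` is *tempered* if for all discrete valuations `v` of all fields `L` with
a homomorphism `K → L` and all `z_1, ..., z_S ∈ Lˣ` such that the value of `P(z)` is smaller than the
value of one of the monomials of `P` at `z`, all symbols `{z_1, ..., z_S, a_1, ..., a_n}` lie in the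
part of the Milnor K-group of `L` which is generated by the symbols of units at `v`. -/
def Tempered {K : Type u} [Field K] {S : ℕ} (P : MvPolynomial (Fin S) K) : Prop :=
  ∀ (L : Type v) [Field L] (f : K →+* L) (v : Valuation L ℤᵐ⁰) (z : Fin S → Lˣ),
    (∃ m ∈ P.support, v (P.eval₂ f fun j => (z j : L)) < v (∏ j, (z j : L) ^ m j)) →
    ∀ (n : ℕ) (a : Fin n → Lˣ), symb (Fin.append z a) ∈ unitPart v (S + n)

section prod

variable {K : Type u} [Field K] {S : ℕ}

theorem tempered_one : Tempered.{u, v} (1 : MvPolynomial (Fin S) K) := by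
  classical
  rintro L _ f v z ⟨m, hm, hlt⟩ n a
  exfalso
  have h1 : m = 0 := by
    have h2 : m ∈ (1 : MvPolynomial (Fin S) K).support := hm
    rw [MvPolynomial.mem_support_iff, MvPolynomial.coeff_one] at h2
    by_contra h3
    rw [if_neg (Ne.symm h3)] at h2
    exact h2 rfl
  subst h1
  rw [MvPolynomial.eval₂_one] at hlt
  simp at hlt

/-- Products of tempered polynomials are tempered. -/
theorem Tempered.mul {P Q : MvPolynomial (Fin S) K} (hP : Tempered.{u, v} P)
    (hQ : Tempered.{u, v} Q) : Tempered.{u, v} (P * Q) := by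
  classical
  rintro L _ f v z ⟨m, hm, hlt⟩ n a
  obtain ⟨m1, h1, m2, h2, rfl⟩ := Finset.mem_add.1 (MvPolynomial.support_mul P Q hm)
  have e : (∏ j, (z j : L) ^ (m1 + m2) j) = (∏ j, (z j : L) ^ m1 j) * ∏ j, (z j : L) ^ m2 j := by
    rw [← Finset.prod_mul_distrib]
    exact Finset.prod_congr rfl fun j _ => pow_add _ _ _
  rw [MvPolynomial.eval₂_mul, e, map_mul, map_mul] at hlt
  by_cases h3 : v (P.eval₂ f fun j => (z j : L)) < v (∏ j, (z j : L) ^ m1 j)
  · exact hP L f v z ⟨m1, h1, h3⟩ n a
  · by_cases h4 : v (Q.eval₂ f fun j => (z j : L)) < v (∏ j, (z j : L) ^ m2 j)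
    · exact hQ L f v z ⟨m2, h2, h4⟩ n a
    · exact absurd hlt (not_lt.2 (mul_le_mul' (not_lt.1 h3) (not_lt.1 h4)))

theorem tempered_prod {ι : Type*} (T : Finset ι) (P : ι → MvPolynomial (Fin S) K)
    (h : ∀ i ∈ T, Tempered.{u, v} (P i)) : Tempered.{u, v} (∏ i ∈ T, P i) := by
  classical
  induction T using Finset.induction_on with
  | empty =>
    rw [Finset.prod_empty]
    exact tempered_one
  | insert j T hj ih =>
    rw [Finset.prod_insert hj]
    exact (h j (Finset.mem_insert_self _ _)).mul
      (ih fun i hi => h i (Finset.mem_insert_of_mem hi))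

end prod

section lattice

theorem exists_int_multiple {ι : Type*} [Fintype ι] (q : ι → ℚ) :
    ∃ d : ℕ, d ≠ 0 ∧ ∀ i, ∃ k : ℤ, (k : ℚ) = d * q i := by
  classical
  refine ⟨∏ i, (q i).den, Finset.prod_ne_zero_iff.2 fun i _ => (q i).den_nz, fun i => ?_⟩
  refine ⟨(∏ j ∈ Finset.univ.erase i, ((q j).den : ℤ)) * (q i).num, ?_⟩
  rw [← Finset.mul_prod_erase Finset.univ (fun i => (q i).den) (Finset.mem_univ i)]
  push_cast
  have h := Rat.den_mul_eq_num (q i)
  calc (∏ j ∈ Finset.univ.erase i, ((q j).den : ℚ)) * ((q i).num : ℚ)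
      = (∏ j ∈ Finset.univ.erase i, ((q j).den : ℚ)) * (((q i).den : ℚ) * q i) := by rw [h]
    _ = _ := by ring

/-- Linearly independent integral vectors as rows (up to a common factor) of a regular integral
matrix. -/
theorem exists_int_basis {S : ℕ} {ι : Type*} [Finite ι] (E : ι → Fin S → ℤ)
    (h : LinearIndependent ℚ fun (i : ι) (l : Fin S) => (E i l : ℚ)) {N : ℕ} (hN : N ≠ 0) :
    ∃ (p : ι → Fin S) (B : Matrix (Fin S) (Fin S) ℤ) (N' : ℕ), Function.Injective p ∧
      B.det ≠ 0 ∧ N' ≠ 0 ∧ N ∣ N' ∧ ∀ i l, B (p i) l = N' * E i l := by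
  classical
  have hs : LinearIndepOn ℚ id (Set.range fun (i : ι) (l : Fin S) => (E i l : ℚ)) :=
    h.linearIndepOn_id
  let b := Module.Basis.extend hs
  have hfin : Finite (hs.extend (Set.subset_univ _)) := Module.Finite.finite_basis b
  have hft : Fintype (hs.extend (Set.subset_univ _)) := Fintype.ofFinite _
  have hcard : Fintype.card (hs.extend (Set.subset_univ _)) = Fintype.card (Fin S) := by
    have h1 := Module.finrank_eq_card_basis b
    rw [Module.finrank_pi] at h1
    exact h1.symm
  let e := Fintype.equivOfCardEq hcard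
  let b' := b.reindex e
  have hsub : ∀ i : ι, (fun (l : Fin S) => (E i l : ℚ)) ∈ hs.extend (Set.subset_univ _) :=
    fun i => hs.subset_extend _ ⟨i, rfl⟩
  have hb' : ∀ i, b' (e ⟨_, hsub i⟩) = fun (l : Fin S) => (E i l : ℚ) := by
    intro i
    rw [Module.Basis.reindex_apply, Equiv.symm_apply_apply]
    exact Module.Basis.extend_apply_self hs _
  obtain ⟨d, hd0, hd⟩ := exists_int_multiple fun x : Fin S × Fin S => b' x.1 x.2
  choose k hk using hd
  refine ⟨fun i => e ⟨_, hsub i⟩, Matrix.of fun j l => N * k (j, l), N * d, ?_, ?_,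
    mul_ne_zero hN hd0, dvd_mul_right _ _, ?_⟩
  · intro i i' hii
    have h1 := e.injective hii
    have h2 := congrArg Subtype.val h1
    exact h.injective h2
  · have hmap : ((Matrix.of fun j l => (N : ℤ) * k (j, l)).map (Int.castRingHom ℚ)) =
        ((N : ℚ) * d) • Matrix.of fun j l => b' j l := by
      ext j l
      rw [Matrix.map_apply, Matrix.smul_apply, Matrix.of_apply, Matrix.of_apply, smul_eq_mul,
        mul_assoc, ← hk (j, l)]
      simp
    intro h0
    have h1 := congrArg (Int.castRingHom ℚ) h0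
    rw [RingHom.map_det, map_zero] at h1
    have h2 : ((Matrix.of fun j l => (N : ℤ) * k (j, l)).map (Int.castRingHom ℚ)).det = 0 := h1
    rw [hmap, Matrix.det_smul] at h2
    have h3 : ((N : ℚ) * d) ^ Fintype.card (Fin S) ≠ 0 :=
      pow_ne_zero _ (mul_ne_zero (Nat.cast_ne_zero.2 hN) (Nat.cast_ne_zero.2 hd0))
    have h4 : IsUnit (Matrix.of fun j l => b' j l) := by
      rw [← Matrix.linearIndependent_rows_iff_isUnit]
      exact b'.linearIndependent
    rw [Matrix.isUnit_iff_isUnit_det] at h4
    exact h4.ne_zero ((mul_eq_zero.1 h2).resolve_left h3)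
  · intro i l
    have h1 := hk (e ⟨_, hsub i⟩, l)
    have h2 : b' (e ⟨_, hsub i⟩) l = (E i l : ℚ) := congrFun (hb' i) l
    have h3 : (k (e ⟨_, hsub i⟩, l) : ℚ) = ((d * E i l : ℤ) : ℚ) := by
      rw [h1]
      simp only
      rw [h2]
      push_cast
      ring
    have h4 : k (e ⟨_, hsub i⟩, l) = d * E i l := by exact_mod_cast h3
    rw [Matrix.of_apply, h4]
    push_cast
    ring

end lattice

section block

variable {S n : ℕ}

/-- the block matrix -/
def bm (B : Matrix (Fin S) (Fin S) ℤ) : Matrix (Fin (S + n)) (Fin (S + n)) ℤ :=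
  Matrix.of (Fin.append (fun j => Fin.append (B j) fun _ => 0)
    fun k => Fin.append (fun _ => 0) (Pi.single k 1))

theorem det_bm (B : Matrix (Fin S) (Fin S) ℤ) : (bm (n := n) B).det = B.det := by
  rw [← Matrix.det_submatrix_equiv_self (finSumFinEquiv (m := S) (n := n))]
  have h : ((bm (n := n) B).submatrix (finSumFinEquiv (m := S) (n := n))
      (finSumFinEquiv (m := S) (n := n))) = Matrix.fromBlocks B 0 0 1 := by
    ext i j
    rw [Matrix.submatrix_apply]
    rcases i with i | i <;> rcases j with j | j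
    · rw [finSumFinEquiv_apply_left, finSumFinEquiv_apply_left, Matrix.fromBlocks_apply₁₁]
      simp [bm]
    · rw [finSumFinEquiv_apply_left, finSumFinEquiv_apply_right, Matrix.fromBlocks_apply₁₂]
      simp [bm]
    · rw [finSumFinEquiv_apply_right, finSumFinEquiv_apply_left, Matrix.fromBlocks_apply₂₁]
      simp [bm]
    · rw [finSumFinEquiv_apply_right, finSumFinEquiv_apply_right, Matrix.fromBlocks_apply₂₂]
      simp [bm, Matrix.one_apply, Pi.single_apply, eq_comm]
  rw [h, Matrix.det_fromBlocks_zero₂₁, Matrix.det_one, mul_one]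

variable {L : Type*} [Field L]

/-- To show that a symbol lies in the unit part it is enough to consider the symbol with other
entries which generate a subgroup of finite index, up to torsion. -/
theorem mem_of_basis {ι : Type*} [Finite ι] (v : Valuation L ℤᵐ⁰) (z : Fin S → Lˣ)
    (a : Fin n → Lˣ) (E : ι → Fin S → ℤ)
    (h : LinearIndependent ℚ fun (i : ι) (l : Fin S) => (E i l : ℚ)) (c : ι → Lˣ) {N : ℕ}
    (hN : N ≠ 0) (hc : ∀ i, c i ^ N = (∏ l, z l ^ E i l) ^ N)
    (hmem : ∀ (p : ι → Fin (S + n)) (b : Fin (S + n) → Lˣ), Function.Injective p →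
      (∀ i, b (p i) = c i) → symb b ∈ unitPart v (S + n)) :
    symb (Fin.append z a) ∈ unitPart v (S + n) := by
  classical
  obtain ⟨p, B, N', hp, hB, hN', hNN, hBE⟩ := exists_int_basis E h hN
  obtain ⟨k, hk⟩ := hNN
  let b2 : Fin (S + n) → Lˣ := Fin.append
    (fun j => if h : ∃ i, p i = j then c h.choose else ∏ l, z l ^ B j l) a
  let e : Fin (S + n) → ℤ := Fin.append (fun j => if ∃ i, p i = j then (N' : ℤ) else 1)
    fun _ => 1
  have hb2 : ∀ i, b2 (Fin.castAdd n (p i)) = c i := by
    intro i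
    have hex : ∃ i', p i' = p i := ⟨i, rfl⟩
    have h1 : b2 (Fin.castAdd n (p i)) = c hex.choose := by
      simp only [b2]
      rw [Fin.append_left, dif_pos hex]
    rw [h1, hp hex.choose_spec]
  have hkey : (fun x => ∏ l, Fin.append z a l ^ bm (n := n) B x l) = fun x => b2 x ^ e x := by
    funext x
    rw [Fin.prod_univ_add]
    refine Fin.addCases (fun j => ?_) (fun j => ?_) x
    · have e1 : (∏ i : Fin S, Fin.append z a (Fin.castAdd n i) ^
          bm (n := n) B (Fin.castAdd n j) (Fin.castAdd n i)) = ∏ l, z l ^ B j l := by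
        refine Finset.prod_congr rfl fun l _ => ?_
        simp [bm]
      have e2 : (∏ i : Fin n, Fin.append z a (Fin.natAdd S i) ^
          bm (n := n) B (Fin.castAdd n j) (Fin.natAdd S i)) = 1 := by
        refine Finset.prod_eq_one fun l _ => ?_
        simp [bm]
      rw [e1, e2, mul_one]
      by_cases hex : ∃ i, p i = j
      · obtain ⟨i, rfl⟩ := hex
        have h3 : e (Fin.castAdd n (p i)) = N' := by
          simp only [e]
          rw [Fin.append_left, if_pos ⟨i, rfl⟩]
        rw [hb2, h3, zpow_natCast, hk, pow_mul, hc i, ← pow_mul, ← hk, ← zpow_natCast,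
          ← Finset.prod_zpow]
        refine Finset.prod_congr rfl fun l _ => ?_
        rw [hBE, ← zpow_mul, mul_comm]
      · have h3 : e (Fin.castAdd n j) = 1 := by
          simp only [e]
          rw [Fin.append_left, if_neg hex]
        have h4 : b2 (Fin.castAdd n j) = ∏ l, z l ^ B j l := by
          simp only [b2]
          rw [Fin.append_left, dif_neg hex]
        rw [h3, h4, zpow_one]
    · have e1 : (∏ i : Fin S, Fin.append z a (Fin.castAdd n i) ^
          bm (n := n) B (Fin.natAdd S j) (Fin.castAdd n i)) = 1 := by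
        refine Finset.prod_eq_one fun l _ => ?_
        simp [bm]
      have e2 : (∏ i : Fin n, Fin.append z a (Fin.natAdd S i) ^
          bm (n := n) B (Fin.natAdd S j) (Fin.natAdd S i)) = a j := by
        rw [Finset.prod_eq_single j]
        · simp [bm]
        · intro l _ hl
          simp [bm, Pi.single_apply, hl]
        · intro hh
          exact absurd (Finset.mem_univ j) hh
      have h3 : e (Fin.natAdd S j) = 1 := by
        simp only [e]
        rw [Fin.append_right]
      have h4 : b2 (Fin.natAdd S j) = a j := by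
        simp only [b2]
        rw [Fin.append_right]
      rw [e1, e2, one_mul, h3, h4, zpow_one]
  have h1 := symb_monomials (Fin.append z a) (bm (n := n) B)
  rw [hkey, symb_pow_all, det_bm] at h1
  have h2 : symb b2 ∈ unitPart v (S + n) := hmem (fun i => Fin.castAdd n (p i)) b2
    (fun i i' hii => hp (Fin.castAdd_injective _ _ hii)) hb2
  have h3 := (unitPart v (S + n)).smul_mem (((∏ j, e j : ℤ) : ℚ)) h2
  rw [h1] at h3
  have h4 : ((B.det : ℤ) : ℚ) ≠ 0 := by exact_mod_cast hB
  have h5 := (unitPart v (S + n)).smul_mem (((B.det : ℤ) : ℚ)⁻¹) h3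
  rwa [smul_smul, inv_mul_cancel₀ h4, one_smul] at h5

end block

section simplex

variable {K : Type u} [Field K] {S : ℕ}

theorem val_eq_one_of_pow {L : Type*} [Field L] (v : Valuation L ℤᵐ⁰) {x : L} {N : ℕ}
    (hN : N ≠ 0) (h : x ^ N = 1) : v x = 1 := by
  have h1 : v x ^ N = 1 := by rw [← map_pow, h, map_one]
  exact (pow_eq_one_iff_of_nonneg zero_le hN).1 h1

/-- A polynomial whose coefficients are roots of unity and whose exponents are affinely independent is
tempered. -/
theorem tempered_simplex {ι : Type*} [Fintype ι] (M : ι → Fin S →₀ ℕ) (ε : ι → K) {N : ℕ}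
    (hN : N ≠ 0) (hε : ∀ i, ε i ^ N = 1)
    (hM : AffineIndependent ℚ fun (i : ι) (l : Fin S) => (M i l : ℚ)) :
    Tempered.{u, v} (∑ i, MvPolynomial.monomial (M i) (ε i)) := by
  classical
  rintro L _ f v z ⟨m, hm, hlt⟩ n a
  have hε0 : ∀ i, ε i ≠ 0 := fun i h0 => by
    have h1 := hε i
    rw [h0, zero_pow hN] at h1
    exact zero_ne_one h1
  set t : ι → Lˣ := fun i => Units.mk0 (f (ε i)) ((map_ne_zero f).2 (hε0 i)) *
    ∏ l, z l ^ (M i l) with ht
  have htc : ∀ i, (t i : L) = f (ε i) * ∏ l, (z l : L) ^ (M i l) := by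
    intro i
    simp only [ht]
    rw [Units.val_mul, Units.val_mk0, Units.coe_prod]
    simp only [Units.val_pow_eq_pow_val]
  have hvt : ∀ i, v (t i : L) = v (∏ l, (z l : L) ^ (M i l)) := by
    intro i
    rw [htc, map_mul, val_eq_one_of_pow v hN (x := f (ε i)) (by rw [← map_pow, hε, map_one]),
      one_mul]
  have hP : MvPolynomial.eval₂ f (fun j => (z j : L)) (∑ i, MvPolynomial.monomial (M i) (ε i)) =
      ∑ i, (t i : L) := by
    rw [MvPolynomial.eval₂_sum]
    refine Finset.sum_congr rfl fun i _ => ?_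
    rw [MvPolynomial.eval₂_monomial, Finsupp.prod_fintype _ _ fun i => pow_zero _, htc]
  obtain ⟨i1, hi1⟩ : ∃ i, m = M i := by
    rw [MvPolynomial.mem_support_iff, MvPolynomial.coeff_sum] at hm
    obtain ⟨i, -, hi⟩ := Finset.exists_ne_zero_of_sum_ne_zero hm
    rw [MvPolynomial.coeff_monomial] at hi
    refine ⟨i, ?_⟩
    by_contra hcon
    rw [if_neg (Ne.symm hcon)] at hi
    exact hi rfl
  obtain ⟨i0, -, hi0⟩ := Finset.exists_max_image Finset.univ (fun i => v (t i : L))
    ⟨i1, Finset.mem_univ _⟩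
  have hlt' : v (∑ i, (t i : L)) < v (t i0 : L) := by
    rw [← hP]
    refine hlt.trans_le ?_
    rw [hi1, ← hvt]
    exact hi0 i1 (Finset.mem_univ _)
  have ht0 : (t i0 : L) ≠ 0 := (t i0).ne_zero
  set c : {i // i ≠ i0} → Lˣ := fun i => -(t i / t i0) with hcdef
  have hcc : ∀ i, (c i : L) = -((t i : L) / t i0) := by
    intro i
    simp only [hcdef]
    rw [Units.val_neg, Units.val_div_eq_div_val]
  have hsum : v (∑ i, (c i : L) - 1) < 1 := by
    have e1 : ∑ i, (c i : L) - 1 = -((∑ i, (t i : L)) / t i0) := by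
      rw [← Finset.add_sum_erase Finset.univ (fun i => (t i : L)) (Finset.mem_univ i0)]
      have e2 : ∑ i : {i // i ≠ i0}, (c i : L) =
          ∑ i ∈ Finset.univ.erase i0, -((t i : L) / t i0) := by
        simp only [hcc]
        rw [← Finset.sum_subtype (Finset.univ.erase i0) (p := fun i => i ≠ i0)
          (fun i => by simp) (fun i => -((t i : L) / t i0))]
      rw [e2, Finset.sum_neg_distrib, ← Finset.sum_div, add_div, div_self ht0]
      ring
    rw [e1, Valuation.map_neg, map_div₀, div_lt_one₀ (by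
      rw [Valuation.pos_iff]
      exact ht0)]
    exact hlt'
  have hli : LinearIndependent ℚ fun (i : {i // i ≠ i0}) (l : Fin S) =>
      (((M i l : ℤ) - (M i0 l : ℤ) : ℤ) : ℚ) := by
    have h1 := (affineIndependent_iff_linearIndependent_vsub ℚ _ i0).1 hM
    have e : (fun (i : {i // i ≠ i0}) (l : Fin S) => (((M i l : ℤ) - (M i0 l : ℤ) : ℤ) : ℚ)) =
        fun i : {i // i ≠ i0} => ((fun (l : Fin S) => (M i l : ℚ)) -ᵥ
          fun (l : Fin S) => (M i0 l : ℚ)) := by
      funext i l
      rw [vsub_eq_sub, Pi.sub_apply]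
      push_cast
      ring
    rw [e]
    exact h1
  refine mem_of_basis v z a _ hli c (N := 2 * N) (mul_ne_zero two_ne_zero hN) (fun i => ?_)
    fun p b hp hb => ?_
  · have h1 : ∏ l, z l ^ (((M i l : ℤ) - (M i0 l : ℤ) : ℤ)) =
        (∏ l, z l ^ M i l) / ∏ l, z l ^ M i0 l := by
      rw [← Finset.prod_div_distrib]
      refine Finset.prod_congr rfl fun l _ => ?_
      rw [zpow_sub, zpow_natCast, zpow_natCast]
      rfl
    have h2 : ∀ i, (Units.mk0 (f (ε i)) ((map_ne_zero f).2 (hε0 i))) ^ N = 1 := by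
      intro i
      apply Units.ext
      rw [Units.val_pow_eq_pow_val, Units.val_mk0, ← map_pow, hε, map_one, Units.val_one]
    have h3 : ∀ i, t i ^ N = (∏ l, z l ^ M i l) ^ N := by
      intro i
      simp only [ht]
      rw [mul_pow, h2, one_mul]
    rw [h1]
    simp only [hcdef]
    rw [pow_mul, neg_sq, ← pow_mul, mul_comm 2 N, pow_mul, div_pow, h3, h3, ← div_pow, ← pow_mul]
  · refine mem_unitPart_of_sum_one v (Finset.univ.image p) b ?_
    rw [Finset.sum_image fun i _ j _ hij => hp hij]
    simp only [hb]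
    exact hsum

end simplex

end Pool.Agent.T6.H24.TM
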