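import Pool.Agent.T6.H53.CT.Ring
import Pool.Agent.T6.H24.TM.Tmp
import Pool.Agent.T6.H24.TM.Dom
set_option autoImplicit false

/-!
The fibrations `P(z) = λ g(x) ∏_j ∏_i (x_j - φ_{j,i}(x_{j+1}, ..., x_n)) z^w` over the affine space.
-/

namespace Pool.Agent.T6.H24.TM

open Pool.Agent.TH826.MK (KQ symb Unramified unitPart)

open Pool.Agent.Y797.TW (Tower)

open Pool.Agent.T6.H53.CT (bPhi bPhi_ne_zero bPhi_ne_C)

section Ring

variable {K : Type*} [Field K] {S n : ℕ} (A : Tower K n) (lam : K) (P : MvPolynomial (Fin S) K)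
  (w : Fin S → ℕ)

/-- The monomial `z^w`. -/
noncomputable def zw (K : Type*) [Field K] {S : ℕ} (w : Fin S → ℕ) : MvPolynomial (Fin S) K :=
  ∏ j, MvPolynomial.X j ^ w j

/-- The polynomial `Φ = λ g ∏_j ∏_i (x_j - φ_{j,i})`, as a polynomial in the variables
`x_0, ..., x_n, z_1, ..., z_S`. -/
noncomputable def fPhi (S : ℕ) : MvPolynomial (Fin (n + 1) ⊕ Fin S) K :=
  MvPolynomial.rename Sum.inl (bPhi A lam)

/-- The equation `P(z) - Φ(x) z^w`. -/
noncomputable def feqn : MvPolynomial (Fin (n + 1) ⊕ Fin S) K :=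
  MvPolynomial.rename Sum.inr P - fPhi A lam S * MvPolynomial.rename Sum.inr (zw K w)

/-- The coordinate ring of the hypersurface `P(z) = Φ(x) z^w` in the affine space with the
coordinates `x_0, ..., x_n, z_1, ..., z_S`. -/
def FRing : Type _ :=
  MvPolynomial (Fin (n + 1) ⊕ Fin S) K ⧸ Ideal.span {feqn A lam P w}

noncomputable instance : CommRing (FRing A lam P w) :=
  Ideal.Quotient.commRing (Ideal.span {feqn A lam P w})

/-- The polynomials as functions on the hypersurface. -/
noncomputable def fpol : MvPolynomial (Fin (n + 1) ⊕ Fin S) K →+* FRing A lam P w :=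
  Ideal.Quotient.mk (Ideal.span {feqn A lam P w})

/-- The product `∏_j z_j`. -/
noncomputable def zall (K : Type*) [Field K] (S n : ℕ) : MvPolynomial (Fin (n + 1) ⊕ Fin S) K :=
  ∏ j, MvPolynomial.X (Sum.inr j)

/-- The function `Φ ∏_j z_j` on the hypersurface. -/
noncomputable def fdel : FRing A lam P w := fpol A lam P w (fPhi A lam S * zall K S n)

/-- The polynomial `Φ ∏_j z_j T - 1`. -/
noncomputable def feqnO : Polynomial (FRing A lam P w) :=
  Polynomial.C (fdel A lam P w) * Polynomial.X - 1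

/-- The coordinate ring of the open part `Φ ∏_j z_j ≠ 0` of the hypersurface: the ring obtained from
the coordinate ring of the hypersurface by adjoining `T` with `Φ ∏_j z_j T = 1`. -/
def FOpen : Type _ := AdjoinRoot (feqnO A lam P w)

noncomputable instance : CommRing (FOpen A lam P w) := AdjoinRoot.instCommRing (feqnO A lam P w)

/-- The restriction of functions to the open part. -/
noncomputable def toF : FRing A lam P w →+* FOpen A lam P w := AdjoinRoot.of (feqnO A lam P w)

/-- The constants. -/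
noncomputable def fcst : K →+* FOpen A lam P w :=
  (toF A lam P w).comp ((fpol A lam P w).comp MvPolynomial.C)

theorem fpol_feqn : fpol A lam P w (feqn A lam P w) = 0 :=
  Ideal.Quotient.eq_zero_iff_mem.2 (Ideal.subset_span rfl)

theorem isUnit_fdel : IsUnit (toF A lam P w (fdel A lam P w)) := by
  have h := AdjoinRoot.mk_self (f := feqnO A lam P w)
  have h2 : AdjoinRoot.mk (feqnO A lam P w) (feqnO A lam P w) =
      AdjoinRoot.of (feqnO A lam P w) (fdel A lam P w) *
      AdjoinRoot.root (feqnO A lam P w) - 1 := by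
    conv_lhs => rw [show AdjoinRoot.mk (feqnO A lam P w) (feqnO A lam P w) =
      AdjoinRoot.mk (feqnO A lam P w)
      (Polynomial.C (fdel A lam P w) * Polynomial.X - 1) from rfl]
    rw [map_sub, map_mul, map_one, AdjoinRoot.mk_X, AdjoinRoot.mk_C]
  rw [h2, sub_eq_zero] at h
  exact IsUnit.of_mul_eq_one _ h

theorem isUnit_fz (j : Fin S) :
    IsUnit (toF A lam P w (fpol A lam P w (MvPolynomial.X (Sum.inr j)))) := by
  refine isUnit_of_dvd_unit (map_dvd _ (map_dvd _ ?_)) (isUnit_fdel A lam P w)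
  exact Dvd.dvd.mul_left (Finset.dvd_prod_of_mem
    (fun j => (MvPolynomial.X (Sum.inr j) : MvPolynomial (Fin (n + 1) ⊕ Fin S) K))
    (Finset.mem_univ j)) _

theorem isUnit_fu (j : Fin (n + 1)) (i : Fin (A.r j + 1)) :
    IsUnit (toF A lam P w (fpol A lam P w (MvPolynomial.rename Sum.inl (A.fac j i)))) := by
  refine isUnit_of_dvd_unit (map_dvd _ (map_dvd _ ?_)) (isUnit_fdel A lam P w)
  refine Dvd.dvd.mul_right (map_dvd (MvPolynomial.rename Sum.inl) ?_) _
  refine Dvd.dvd.mul_left (Dvd.dvd.mul_left ?_ _) _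
  exact (Finset.dvd_prod_of_mem (fun i => A.fac j i) (Finset.mem_univ i)).trans
    (Finset.dvd_prod_of_mem (fun j => ∏ i, A.fac j i) (Finset.mem_univ j))

/-- The unit `z_j`. -/
noncomputable def fz (j : Fin S) : (FOpen A lam P w)ˣ := (isUnit_fz A lam P w j).unit

/-- The unit `x_j - φ_{j,i}`. -/
noncomputable def fu (j : Fin (n + 1)) (i : Fin (A.r j + 1)) : (FOpen A lam P w)ˣ :=
  (isUnit_fu A lam P w j i).unit

theorem coe_fz (j : Fin S) : (fz A lam P w j : FOpen A lam P w) =
    toF A lam P w (fpol A lam P w (MvPolynomial.X (Sum.inr j))) := rfl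

theorem coe_fu (j : Fin (n + 1)) (i : Fin (A.r j + 1)) : (fu A lam P w j i : FOpen A lam P w) =
    toF A lam P w (fpol A lam P w (MvPolynomial.rename Sum.inl (A.fac j i))) := rfl

/-- The entries `z_1, ..., z_S` and `(x_j - φ_{j,k_j+1}) / (x_j - φ_{j,0})`, `j = 0, ..., n`, of the
symbol of `k`. -/
noncomputable def fent (k : ∀ j, Fin (A.r j)) : Fin (S + (n + 1)) → (FOpen A lam P w)ˣ :=
  Fin.append (fun j : Fin S => fz A lam P w j)
    fun j : Fin (n + 1) => fu A lam P w j (k j).succ / fu A lam P w j 0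

end Ring

section Domain

variable {K : Type*} [Field K] {S n : ℕ} {A : Tower K n} {lam : K} {P : MvPolynomial (Fin S) K}
  {w : Fin S → ℕ}

theorem bPhi_exists (hG : A.Graphs) (hl : lam ≠ 0) :
    ∃ m, m ≠ 0 ∧ MvPolynomial.coeff m (bPhi A lam) ≠ 0 := by
  classical
  by_contra hcon
  push Not at hcon
  refine bPhi_ne_C hG hl (MvPolynomial.coeff 0 (bPhi A lam)) ?_
  ext m
  rw [MvPolynomial.coeff_C]
  by_cases hm : 0 = m
  · rw [if_pos hm, hm]
  · rw [if_neg hm]
    exact hcon m (Ne.symm hm)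

theorem sum_feqn : MvPolynomial.sumAlgEquiv K (Fin (n + 1)) (Fin S) (feqn A lam P w) =
    lin (MvPolynomial.C : K →+* MvPolynomial (Fin S) K) P (zw K w) (bPhi A lam) := by
  have h1 : ∀ Q : MvPolynomial (Fin S) K, MvPolynomial.sumAlgEquiv K (Fin (n + 1)) (Fin S)
      (MvPolynomial.rename Sum.inr Q) = MvPolynomial.C Q := fun Q =>
    DFunLike.congr_fun (MvPolynomial.sumAlgEquiv_comp_rename_inr (R := K) (S₁ := Fin (n + 1))
      (S₂ := Fin S)) Q
  have h2 : ∀ Q : MvPolynomial (Fin (n + 1)) K, MvPolynomial.sumAlgEquiv K (Fin (n + 1)) (Fin S)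
      (MvPolynomial.rename Sum.inl Q) =
      MvPolynomial.map (MvPolynomial.C : K →+* MvPolynomial (Fin S) K) Q := fun Q =>
    DFunLike.congr_fun (MvPolynomial.sumAlgEquiv_comp_rename_inl (R := K) (S₁ := Fin (n + 1))
      (S₂ := Fin S)) Q
  unfold feqn lin fPhi
  rw [map_sub, map_mul, h1, h1, h2, mul_comm (MvPolynomial.C (zw K w))]

theorem prime_feqn (hG : A.Graphs) (hl : lam ≠ 0) (hP : ∀ j, ¬ MvPolynomial.X j ∣ P)
    {j0 : Fin S} (hw : w j0 = 1) : Prime (feqn A lam P w) := by
  classical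
  have hX : ∀ j : Fin S, Prime (MvPolynomial.X j : MvPolynomial (Fin S) K) := fun j =>
    MvPolynomial.X_prime
  have hsplit : zw K w = MvPolynomial.X j0 *
      ∏ j ∈ Finset.univ.erase j0, MvPolynomial.X j ^ w j := by
    unfold zw
    rw [← Finset.mul_prod_erase Finset.univ _ (Finset.mem_univ j0), hw, pow_one]
  rw [← MulEquiv.prime_iff (MvPolynomial.sumAlgEquiv K (Fin (n + 1)) (Fin S))]
  have h := irreducible_lin (MvPolynomial.C : K →+* MvPolynomial (Fin S) K) (p := P)
    (w := zw K w) (F := bPhi A lam) ?_ (MvPolynomial.X j0) (hX j0) ?_ ?_ (hP j0) ?_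
  · have h2 := h.prime
    rw [← sum_feqn] at h2
    exact h2
  · exact bPhi_exists hG hl
  · rw [hsplit]
    exact dvd_mul_right _ _
  · rw [hsplit]
    intro h
    have h1 := (mul_dvd_mul_iff_left (hX j0).ne_zero).1 h
    obtain ⟨j, hj, hd⟩ := (Prime.dvd_finsetProd_iff (hX j0) _).1 h1
    have h2 := (hX j0).dvd_of_dvd_pow hd
    rw [MvPolynomial.X_dvd_X] at h2
    exact Finset.ne_of_mem_erase hj h2.symm
  · intro q hq hqw hqP
    have hqp : Prime q := hq.prime
    obtain ⟨j, hj, hd⟩ := (Prime.dvd_finsetProd_iff hqp _).1 hqw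
    have h2 := hqp.dvd_of_dvd_pow hd
    have h3 := (hqp.associated_of_dvd (hX j) h2).symm
    exact hP j (h3.dvd.trans hqP)

theorem isDomain_FRing (hG : A.Graphs) (hl : lam ≠ 0) (hP : ∀ j, ¬ MvPolynomial.X j ∣ P)
    {j0 : Fin S} (hw : w j0 = 1) : IsDomain (FRing A lam P w) := by
  have hp := prime_feqn hG hl hP hw
  have : (Ideal.span {feqn A lam P w}).IsPrime :=
    (Ideal.span_singleton_prime hp.ne_zero).2 hp
  exact Ideal.Quotient.isDomain (Ideal.span {feqn A lam P w})

/-- The function `Φ ∏_j z_j` does not vanish on the hypersurface. -/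
theorem fdel_ne_zero (hG : A.Graphs) (hl : lam ≠ 0) (hP : P ≠ 0) : fdel A lam P w ≠ 0 := by
  classical
  intro h
  have h1 : fPhi A lam S * zall K S n ∈ Ideal.span {feqn A lam P w} :=
    Ideal.Quotient.eq_zero_iff_mem.1 h
  rw [Ideal.mem_span_singleton] at h1
  have hsum : ∀ Q : MvPolynomial (Fin (n + 1)) K, MvPolynomial.sumAlgEquiv K (Fin (n + 1)) (Fin S)
      (MvPolynomial.rename Sum.inl Q) =
      MvPolynomial.map (MvPolynomial.C : K →+* MvPolynomial (Fin S) K) Q := fun Q =>
    DFunLike.congr_fun (MvPolynomial.sumAlgEquiv_comp_rename_inl (R := K) (S₁ := Fin (n + 1))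
      (S₂ := Fin S)) Q
  have h3 := map_dvd (MvPolynomial.sumAlgEquiv K (Fin (n + 1)) (Fin S)) h1
  unfold fPhi zall at h3
  rw [map_mul, sum_feqn, hsum, map_prod] at h3
  simp only [MvPolynomial.sumAlgEquiv_X_inr] at h3
  rw [← map_prod] at h3
  refine not_dvd_lin _ (bPhi_exists hG hl) ?_ hP ?_ h3
  · exact Finset.prod_ne_zero_iff.2 fun j _ => pow_ne_zero _ (MvPolynomial.X_ne_zero j)
  · exact Finset.prod_ne_zero_iff.2 fun j _ => MvPolynomial.X_ne_zero j

end Domain

section LiftF

variable {K : Type*} [Field K] {S n : ℕ} {A : Tower K n} {lam : K} {P : MvPolynomial (Fin S) K}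
  {w : Fin S → ℕ} {B : Type*} [Field B]

/-- The extension of a homomorphism with `Φ ∏_j z_j ↦ g ≠ 0` to the ring of the open part. -/
noncomputable def liftF (g : FRing A lam P w →+* B) (hg : g (fdel A lam P w) ≠ 0) :
    FOpen A lam P w →+* B :=
  AdjoinRoot.lift g (g (fdel A lam P w))⁻¹ (by
    unfold feqnO
    simp only [Polynomial.eval₂_sub, Polynomial.eval₂_mul, Polynomial.eval₂_X,
      Polynomial.eval₂_C, Polynomial.eval₂_one]
    rw [mul_inv_cancel₀ hg, sub_self])

theorem liftF_toF (g : FRing A lam P w →+* B) (hg : g (fdel A lam P w) ≠ 0)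
    (b : FRing A lam P w) : liftF g hg (toF A lam P w b) = g b :=
  AdjoinRoot.lift_of _

theorem liftF_mk (g : FRing A lam P w →+* B) (hg : g (fdel A lam P w) ≠ 0)
    (p : Polynomial (FRing A lam P w)) :
    liftF g hg (AdjoinRoot.mk (feqnO A lam P w) p : AdjoinRoot (feqnO A lam P w)) =
      p.eval₂ g (g (fdel A lam P w))⁻¹ :=
  AdjoinRoot.lift_mk _ p

end LiftF

end Pool.Agent.T6.H24.TM
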